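import Pool.Agent.W_04c03c_h62s.SDefs

/-!
# Crossed homomorphisms of finitely generated groups
-/

namespace Q62

section
variable {Γ : Type} [Group Γ] {k : Type} [Field k]

/-- A crossed homomorphism which vanishes on generators is zero. -/
theorem XHom_zero_of_gen {χ : Γ →* kˣ} {d : Γ → k} (hd : d ∈ XHom χ) {S : Set Γ}
    (hS : ∀ s ∈ S, d s = 0) : ∀ g ∈ Subgroup.closure S, d g = 0 := by
  have h1 : d 1 = 0 := by
    have h := hd 1 1
    rw [mul_one, map_one, Units.val_one, one_mul] at h
    linear_combination -h
  intro g hg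
  induction hg using Subgroup.closure_induction with
  | mem g hg => exact hS g hg
  | one => exact h1
  | mul g h _ _ hg hh => rw [hd g h, hg, hh, mul_zero, add_zero]
  | inv g _ hg =>
    have h := hd g⁻¹ g
    rw [inv_mul_cancel, h1, hg, mul_zero, add_zero] at h
    exact h.symm

theorem XHom_fd [hfg : Group.FG Γ] (χ : Γ →* kˣ) : FiniteDimensional k (XHom χ) := by
  classical
  obtain ⟨S, hS⟩ := hfg.out
  let f : XHom χ →ₗ[k] (S → k) :=
    { toFun := fun d s => d.1 s
      map_add' := fun _ _ => rfl
      map_smul' := fun _ _ => rfl }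
  refine FiniteDimensional.of_injective f ?_
  rw [injective_iff_map_eq_zero]
  intro d hd
  apply Subtype.ext
  funext g
  refine XHom_zero_of_gen d.2 (S := (S : Set Γ)) (fun s hs => ?_) g (by rw [hS]; exact Subgroup.mem_top g)
  exact congrFun hd ⟨s, hs⟩

end

end Q62
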