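import Pool.Agent.W_04c03c_h62i.IJ
import Pool.Agent.W_04c03c_h62i.JA
import Pool.Agent.W_04c03c_h58t.XDef
import Pool.Agent.W_04c03c_h58t.DD

/-!
# The two kinds of equivariant cochains
-/

namespace Thu

open RCan MulAction

section

variable {G Ξ V : Type} [Group G] [MulAction G Ξ] [MulAction G V] {sm : V → V → Prop}
  {cusp : V → Option Ξ} {K : Type} [Field K]

theorem ori_zz {hF : Face G Ξ V sm cusp} {ω : G →* Kˣ} {z : DSub sm cusp K 3}
    (hz : Ori hF ω z) : crW (face_toW hF) K 3 z = 0 := hz.cyc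

theorem ori_gen {hF : Face G Ξ V sm cusp} {ω : G →* Kˣ} {z : DSub sm cusp K 3}
    (hz : Ori hF ω z) : ∀ f : DSub sm cusp K 3, crW (face_toW hF) K 3 f = 0 →
      ∃ (c : K) (e : DSub sm cusp K 2), f = c • z + crW (face_toW hF) K 2 e :=
  fun f hf => hz.gen f hf

theorem ori_tw {hF : Face G Ξ V sm cusp} {ω : G →* Kˣ} {z : DSub sm cusp K 3}
    (hz : Ori hF ω z) (g : G) : ∃ e : DSub sm cusp K 2, crW (face_toW hF) K 2 e =
      trW (face_toW hF) K 3 g z - (ω g : K) • z := by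
  obtain ⟨e, he⟩ := hz.tw g
  have h2 : ((ω g : Kˣ) : K) * (ω g : K) = 1 := by
    rw [← Units.val_mul, hz.sq, Units.val_one]
  refine ⟨(ω g : K) • e, ?_⟩
  rw [map_smul]
  have h3 : crW (face_toW hF) K 2 e = (ω g : K) • trW (face_toW hF) K 3 g z - z := he
  rw [h3, smul_sub, smul_smul, h2, one_smul]

/-- The two kinds of equivariant cochains are the same. -/
noncomputable def eqI (hF : Face G Ξ V sm cusp) (χ : G →* Kˣ) (n : ℕ) :
    EQE sm cusp (charRep χ) n ≃ₗ[K] EQf sm cusp χ n where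
  toFun c := ⟨c.1, ⟨c.2.1, fun g l => c.2.2 g l⟩, by
    obtain ⟨F, hF1, hF2⟩ := hF.fin
    exact ⟨F, hF1, fun l hl => hF2 l (c.2.1.rl l hl)⟩⟩
  invFun c := ⟨c.1, c.2.1.1, fun g l => c.2.1.2 g l⟩
  map_add' _ _ := rfl
  map_smul' _ _ := rfl
  left_inv _ := rfl
  right_inv _ := rfl

theorem eqI_cr (hF : Face G Ξ V sm cusp) (χ : G →* Kˣ) (n : ℕ)
    (c : EQE sm cusp (charRep χ) n) :
    eqI hF χ (n + 1) (crQ hF (charRep χ) n c) = crF (face_toW hF) χ n (eqI hF χ n c) := rfl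

theorem eqI_ker (hF : Face G Ξ V sm cusp) (χ : G →* Kˣ) (n : ℕ) :
    Module.finrank K (LinearMap.ker (crQ (sm := sm) (cusp := cusp) hF (charRep χ) n)) =
      Module.finrank K (LinearMap.ker (crF (sm := sm) (cusp := cusp) (k := K) (face_toW hF) χ n)) := by
  have h1 : (LinearMap.ker (crQ (sm := sm) (cusp := cusp) hF (charRep χ) n)).map
      (eqI hF χ n).toLinearMap = LinearMap.ker (crF (face_toW hF) χ n) := by
    ext c
    constructor
    · rintro ⟨d, hd, rfl⟩
      have hd' : crQ hF (charRep χ) n d = 0 := hd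
      rw [LinearMap.mem_ker]
      show crF (face_toW hF) χ n (eqI hF χ n d) = 0
      rw [← eqI_cr, hd', map_zero]
    · intro hc
      rw [LinearMap.mem_ker] at hc
      refine ⟨(eqI hF χ n).symm c, ?_, (eqI hF χ n).apply_symm_apply c⟩
      show crQ hF (charRep χ) n ((eqI hF χ n).symm c) = 0
      apply (eqI hF χ (n + 1)).injective
      rw [eqI_cr, LinearEquiv.apply_symm_apply, hc, map_zero]
  rw [← h1]
  exact (LinearEquiv.finrank_map_eq (eqI hF χ n) _).symm

theorem eqI_range (hF : Face G Ξ V sm cusp) (χ : G →* Kˣ) (n : ℕ) :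
    Module.finrank K (LinearMap.range (crQ (sm := sm) (cusp := cusp) hF (charRep χ) n)) =
      Module.finrank K
        (LinearMap.range (crF (sm := sm) (cusp := cusp) (k := K) (face_toW hF) χ n)) := by
  have h1 : (LinearMap.range (crQ (sm := sm) (cusp := cusp) hF (charRep χ) n)).map
      (eqI hF χ (n + 1)).toLinearMap = LinearMap.range (crF (face_toW hF) χ n) := by
    ext c
    constructor
    · rintro ⟨_, ⟨d, rfl⟩, rfl⟩
      exact ⟨eqI hF χ n d, rfl⟩
    · rintro ⟨d, rfl⟩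
      exact ⟨_, ⟨(eqI hF χ n).symm d, rfl⟩, rfl⟩
  rw [← h1]
  exact (LinearEquiv.finrank_map_eq (eqI hF χ (n + 1)) _).symm

end

end Thu
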