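import Mathlib

/-!
# Orthogonal ranges
-/

namespace Q62

/-- Two linear maps with ranges which are orthogonal for a nondegenerate form. -/
theorem finrank_add_le_of_orth {F W A B : Type} [Field F] [AddCommGroup W] [Module F W]
    [AddCommGroup A] [Module F A] [AddCommGroup B] [Module F B] [FiniteDimensional F W]
    (f : A →ₗ[F] W) (g : B →ₗ[F] W) (S : W →ₗ[F] W →ₗ[F] F)
    (hS : ∀ w, (∀ u, S u w = 0) → w = 0) (h : ∀ a b, S (f a) (g b) = 0) :
    Module.finrank F (LinearMap.range f) + Module.finrank F (LinearMap.range g) ≤
      Module.finrank F W := by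
  have hinj : Function.Injective S.flip := by
    rw [injective_iff_map_eq_zero]
    intro w hw
    exact hS w fun u => LinearMap.congr_fun hw u
  have h1 : (LinearMap.range g).map S.flip ≤ (LinearMap.range f).dualAnnihilator := by
    rintro _ ⟨_, ⟨b, rfl⟩, rfl⟩
    rw [Submodule.mem_dualAnnihilator]
    rintro _ ⟨a, rfl⟩
    exact h a b
  have h2 := Submodule.finrank_mono h1
  rw [← (Submodule.equivMapOfInjective S.flip hinj (LinearMap.range g)).finrank_eq] at h2
  have h3 := Subspace.finrank_add_finrank_dualAnnihilator_eq (LinearMap.range f)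
  have h4 : Module.finrank F (LinearMap.range f) + Module.finrank F (LinearMap.range g) ≤
      Module.finrank F (LinearMap.range f) +
        Module.finrank F (Submodule.dualAnnihilator (LinearMap.range f)) :=
    Nat.add_le_add_left h2 _
  exact h4.trans h3.le

theorem hom_ext_basis {P : Type} [Group P] {F : Type} [Field F] {a b : P}
    (hgen : Subgroup.closure {a, b} = ⊤) (u : Additive P →+ F) (ha : u (Additive.ofMul a) = 0)
    (hb : u (Additive.ofMul b) = 0) : u = 0 := by
  apply AddMonoidHom.ext
  intro p
  have h1 : p.toMul ∈ Subgroup.closure {a, b} := by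
    rw [hgen]
    exact Subgroup.mem_top _
  have h2 : ∀ q ∈ Subgroup.closure {a, b}, u (Additive.ofMul q) = 0 := by
    intro q hq
    induction hq using Subgroup.closure_induction with
    | mem g hg =>
      rcases hg with rfl | hg
      · exact ha
      · rw [Set.mem_singleton_iff.1 hg]
        exact hb
    | one => exact map_zero u
    | mul g h _ _ hg hh =>
      rw [ofMul_mul, map_add, hg, hh, add_zero]
    | inv g _ hg =>
      rw [ofMul_inv, map_neg, hg, neg_zero]
  exact h2 _ h1

end Q62
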