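import Pool.Agent.W_04c03c_h58.WfF

/-!
# Weighted averages
-/

namespace Q62

open RCan MulAction

variable {Γ Ξ V : Type*} [Group Γ] [MulAction Γ Ξ] [MulAction Γ V] {sm : V → V → Prop}
  {cusp : V → Option Ξ} {k : Type} [Field k]

/-- The weighted average. -/
noncomputable def avw (w : Γ → k) (f : List V → k) : List V → k :=
  fun l => ∑ᶠ g : Γ, w g * f (l.map (fun x => g⁻¹ • x))

theorem avw_supp (hF : WFace Γ Ξ V sm cusp) (w : Γ → k) {n : ℕ} {f : List V → k}
    (hf : IsD sm cusp k n f) (l : List V) :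
    (Function.support (fun g : Γ => w g * f (l.map (fun x => g⁻¹ • x)))).Finite := by
  refine (av_finiteW hF hf l).subset ?_
  intro g hg
  exact right_ne_zero_of_mul hg

omit [MulAction Γ Ξ] in
theorem avw_ex (w : Γ → k) {f : List V → k} {l : List V} (h : avw w f l ≠ 0) :
    ∃ g : Γ, f (l.map (fun x => g⁻¹ • x)) ≠ 0 := by
  by_contra h1
  push Not at h1
  apply h
  unfold avw
  simp [h1]

omit [MulAction Γ Ξ] in
theorem avw_alt (w : Γ → k) {f : List V → k} (hf : Alt f) : Alt (avw w f) := by
  constructor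
  · intro l₁ x y l₂
    unfold avw
    rw [← finsum_neg_distrib]
    congr 1
    funext g
    have := (hf.map (fun x => g⁻¹ • x)).1 l₁ x y l₂
    rw [show f ((l₁ ++ x :: y :: l₂).map (fun x => g⁻¹ • x))
      = -f ((l₁ ++ y :: x :: l₂).map (fun x => g⁻¹ • x)) from this, mul_neg]
  · intro l₁ x l₂
    unfold avw
    have h0 : (fun g : Γ => w g * f ((l₁ ++ x :: x :: l₂).map (fun x => g⁻¹ • x)))
        = fun _ => 0 := by
      funext g
      rw [show f ((l₁ ++ x :: x :: l₂).map (fun x => g⁻¹ • x)) = 0 from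
        (hf.map (fun x => g⁻¹ • x)).2 l₁ x l₂, mul_zero]
    rw [h0]
    exact finsum_zero

theorem avw_add (hF : WFace Γ Ξ V sm cusp) (w : Γ → k) {n : ℕ} {f f' : List V → k}
    (hf : IsD sm cusp k n f) (hf' : IsD sm cusp k n f') : avw w (f + f') = avw w f + avw w f' := by
  funext l
  rw [Pi.add_apply]
  unfold avw
  rw [← finsum_add_distrib (avw_supp hF w hf l) (avw_supp hF w hf' l)]
  congr 1
  funext g
  rw [Pi.add_apply, mul_add]

omit [MulAction Γ Ξ] in
theorem avw_neg (w : Γ → k) (f : List V → k) : avw w (-f) = - avw w f := by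
  funext l
  rw [Pi.neg_apply]
  unfold avw
  rw [← finsum_neg_distrib]
  congr 1
  funext g
  rw [Pi.neg_apply, mul_neg]

theorem avw_sub (hF : WFace Γ Ξ V sm cusp) (w : Γ → k) {n : ℕ} {f f' : List V → k}
    (hf : IsD sm cusp k n f) (hf' : IsD sm cusp k n f') : avw w (f - f') = avw w f - avw w f' := by
  funext l
  rw [Pi.sub_apply]
  unfold avw
  rw [← finsum_sub_distrib (avw_supp hF w hf l) (avw_supp hF w hf' l)]
  congr 1
  funext g
  rw [Pi.sub_apply, mul_sub]

omit [MulAction Γ Ξ] in
theorem av_one (f : List V → k) :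
    av (1 : Γ →* kˣ) f = avw (fun _ : Γ => (1 : k)) f := by
  funext l
  unfold av avw
  congr 1

/-- The weighted average of a translate, for an additive weight. -/
theorem avw_tr (hF : WFace Γ Ξ V sm cusp) (h : Γ → k) (hh : ∀ a b, h (a * b) = h a + h b)
    {n : ℕ} {f : List V → k} (hf : IsD sm cusp k n f) (s : Γ) :
    avw h (tr s f) = avw h f - h s • av (1 : Γ →* kˣ) f := by
  rw [av_one]
  funext l
  rw [Pi.sub_apply, Pi.smul_apply]
  have h1 : avw h (tr s f) l = ∑ᶠ g : Γ, (h g - h s) * f (l.map (fun x => g⁻¹ • x)) := by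
    unfold avw
    rw [← finsum_comp_equiv (Equiv.mulRight s)
      (f := fun g : Γ => (h g - h s) * f (l.map (fun x => g⁻¹ • x)))]
    refine finsum_congr fun g => ?_
    simp only [Equiv.coe_mulRight]
    rw [tr_apply, map_smul_smul, ← mul_inv_rev, hh, add_sub_cancel_right]
  rw [h1]
  unfold avw
  rw [smul_finsum, ← finsum_sub_distrib (avw_supp hF h hf l)]
  · refine finsum_congr fun g => ?_
    rw [smul_eq_mul, one_mul, sub_mul]
  · refine (av_finiteW hF hf l).subset ?_
    intro g hg
    rw [Function.mem_support, smul_eq_mul, one_mul] at hg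
    exact right_ne_zero_of_mul hg

/-- The weighted average at a translated list, for an additive weight. -/
theorem avw_map (hF : WFace Γ Ξ V sm cusp) (h : Γ → k) (hh : ∀ a b, h (a * b) = h a + h b)
    {n : ℕ} {f : List V → k} (hf : IsD sm cusp k n f) (s : Γ) (l : List V) :
    avw h f (l.map (fun x => s • x)) = avw h f l + h s * av (1 : Γ →* kˣ) f l := by
  rw [av_one]
  have h1 : avw h f (l.map (fun x => s • x)) =
      ∑ᶠ g : Γ, (h s + h g) * f (l.map (fun x => g⁻¹ • x)) := by
    unfold avw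
    rw [← finsum_comp_equiv (Equiv.mulLeft s)
      (f := fun g : Γ => h g * f ((l.map (fun x => s • x)).map (fun x => g⁻¹ • x)))]
    refine finsum_congr fun g => ?_
    simp only [Equiv.coe_mulLeft]
    rw [map_smul_smul, mul_inv_rev, inv_mul_cancel_right, hh]
  rw [h1]
  unfold avw
  rw [← smul_eq_mul, smul_finsum, ← finsum_add_distrib (avw_supp hF h hf l)]
  · refine finsum_congr fun g => ?_
    rw [smul_eq_mul, one_mul]
    ring
  · refine (av_finiteW hF hf l).subset ?_
    intro g hg
    rw [Function.mem_support, smul_eq_mul, one_mul] at hg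
    exact right_ne_zero_of_mul hg

/-- The coboundary of a weighted average. -/
theorem cr_avw (hF : WFace Γ Ξ V sm cusp) (w : Γ → k) (n : ℕ) (f : DSub sm cusp k n) :
    cr sm (avw w f.1) = avw w (cr sm f.1) := by
  classical
  funext l
  by_cases hl : Sml sm l
  · rw [cr_of_sml _ hl]
    have hfin : {g : Γ | ∃ m : List V, m.Sublist l ∧ f.1 (m.map (fun x => g⁻¹ • x)) ≠ 0}.Finite := by
      have h1 : ∀ L : List (List V),
          {g : Γ | ∃ m ∈ L, f.1 (m.map (fun x => g⁻¹ • x)) ≠ 0}.Finite := by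
        intro L
        induction L with
        | nil => simp
        | cons a L ih =>
          refine ((av_finiteW hF f.2 a).union ih).subset ?_
          rintro g ⟨m, hm, h2⟩
          rcases List.mem_cons.1 hm with rfl | hm
          · exact Or.inl h2
          · exact Or.inr ⟨m, hm, h2⟩
      refine (h1 l.sublists).subset ?_
      rintro g ⟨m, hm, h2⟩
      exact ⟨m, List.mem_sublists.2 hm, h2⟩
    have h2 : ∀ m : List V, m.Sublist l → avw w f.1 m
        = ∑ g ∈ hfin.toFinset, w g * f.1 (m.map (fun x => g⁻¹ • x)) := by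
      intro m hm
      unfold avw
      apply finsum_eq_sum_of_support_subset
      intro g hg
      simp only [Set.Finite.coe_toFinset, Set.mem_setOf_eq]
      exact ⟨m, hm, right_ne_zero_of_mul hg⟩
    have h3 : avw w (cr sm f.1) l
        = ∑ g ∈ hfin.toFinset, w g * cr sm f.1 (l.map (fun x => g⁻¹ • x)) := by
      unfold avw
      apply finsum_eq_sum_of_support_subset
      intro g hg
      simp only [Set.Finite.coe_toFinset, Set.mem_setOf_eq]
      have hg2 : cr sm f.1 (l.map (fun x => g⁻¹ • x)) ≠ 0 := right_ne_zero_of_mul hg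
      by_contra hcon
      push Not at hcon
      apply hg2
      rw [cr_of_sml _ ((sml_smul hF.smul_sm g⁻¹ l).2 hl), co_map]
      exact dl_eq_zero l (fun l' h4 _ => hcon l' h4)
    rw [h3]
    show dl l (avw w f.1) = _
    rw [dl_congr l (g := fun m => ∑ g ∈ hfin.toFinset, w g * f.1 (m.map (fun x => g⁻¹ • x)))
      (fun l' h4 _ => h2 l' h4)]
    have h5 : ∀ S : Finset Γ,
        dl l (fun m => ∑ g ∈ S, w g * f.1 (m.map (fun x => g⁻¹ • x)))
        = ∑ g ∈ S, w g * dl l (fun m => f.1 (m.map (fun x => g⁻¹ • x))) := by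
      intro S
      induction S using Finset.induction_on with
      | empty =>
        simp only [Finset.sum_empty]
        exact dl_zero l
      | insert a S ha ih =>
        have h6 : (fun m : List V => ∑ g ∈ insert a S, w g * f.1 (m.map (fun x => g⁻¹ • x)))
            = (w a) • (fun m => f.1 (m.map (fun x => a⁻¹ • x)))
              + (fun m => ∑ g ∈ S, w g * f.1 (m.map (fun x => g⁻¹ • x))) := by
          funext m
          rw [Finset.sum_insert ha]
          rfl
        rw [h6, dl_add, dl_smul, ih, Finset.sum_insert ha, smul_eq_mul]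
    rw [h5]
    apply Finset.sum_congr rfl
    intro g _
    rw [cr_of_sml _ ((sml_smul hF.smul_sm g⁻¹ l).2 hl), co_map]
    rfl
  · have h1 : cr sm (avw w f.1) l = 0 := by simp [cr, hl]
    have h2 : ∀ g : Γ, cr sm f.1 (l.map (fun x => g⁻¹ • x)) = 0 := by
      intro g
      have : ¬ Sml sm (l.map (fun x => g⁻¹ • x)) := fun h => hl ((sml_smul hF.smul_sm g⁻¹ l).1 h)
      simp [cr, this]
    rw [h1]
    unfold avw
    simp [h2]

/-- Weighted averages vanish outside relative lists and have support finite modulo the group. -/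
theorem avw_rel (hF : WFace Γ Ξ V sm cusp) (w : Γ → k) {n : ℕ} {f : List V → k}
    (hf : IsD sm cusp k n f) : IsR sm cusp k n (avw w f) ∧ ∃ F : Set V, F.Finite ∧
      ∀ l, avw w f l ≠ 0 → ∃ g : Γ, ∀ x ∈ l, g • x ∈ F := by
  refine ⟨⟨avw_alt w hf.alt, ?_, ?_⟩, ⋃ m ∈ Function.support f, {x | x ∈ m},
    hf.fin.biUnion fun m _ => List.finite_toSet m, ?_⟩
  · intro l hl
    obtain ⟨g, hg⟩ := avw_ex w hl
    simpa using hf.len _ hg
  · intro l hl
    obtain ⟨g, hg⟩ := avw_ex w hl
    have h1 := hf.rl _ hg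
    exact ⟨(sml_smul hF.smul_sm g⁻¹ l).1 h1.1,
      fun h2 => h1.2 ((inC_smul hF.cusp_smul g⁻¹ l).2 h2)⟩
  · intro l hl
    obtain ⟨g, hg⟩ := avw_ex w hl
    refine ⟨g⁻¹, fun x hx => ?_⟩
    rw [Set.mem_iUnion₂]
    exact ⟨l.map (fun x => g⁻¹ • x), hg, List.mem_map_of_mem hx⟩

end Q62
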