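import Pool.Agent.W_04c03c_h62q.QOc1
import Pool.Agent.W_04c03c_h58.WfH

/-!
# A relative cochain whose coboundary is that of a cocycle on a cusp
-/

namespace Q62

open RCan MulAction

variable {Γ Ξ V : Type*} [Group Γ] [MulAction Γ Ξ] [MulAction Γ V] {sm : V → V → Prop}
  {cusp : V → Option Ξ} {k : Type} [Field k]

open Classical in
/-- the potential of `β` on the cusp `ξ`, extended by zero -/
noncomputable def pot0 (β : V → V → k) (cusp : V → Option Ξ) (ξ : Ξ) (v₀ : V) : List V → k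
  | [v] => if cusp v = some ξ then β v₀ v else 0
  | _ => 0

theorem pot0_one {β : V → V → k} {ξ : Ξ} {v₀ v : V} (h : cusp v = some ξ) :
    pot0 β cusp ξ v₀ [v] = β v₀ v := by
  simp [pot0, h]

theorem pot0_zero {β : V → V → k} {ξ : Ξ} {v₀ v : V} (h : cusp v ≠ some ξ) :
    pot0 β cusp ξ v₀ [v] = 0 := by
  simp [pot0, h]

theorem pot0_len {β : V → V → k} {ξ : Ξ} {v₀ : V} {l : List V} (h : pot0 β cusp ξ v₀ l ≠ 0) :
    l.length = 1 := by
  match l with
  | [] => exact absurd rfl h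
  | [x] => rfl
  | x :: y :: l => exact absurd rfl h

theorem pot0_alt (β : V → V → k) (ξ : Ξ) (v₀ : V) : Alt (pot0 β cusp ξ v₀) := by
  have h0 : ∀ l : List V, l.length ≠ 1 → pot0 β cusp ξ v₀ l = 0 := by
    intro l hl
    by_contra h
    exact hl (pot0_len h)
  constructor
  · intro l₁ x y l₂
    rw [h0 _ (by simp only [List.length_append, List.length_cons]; omega),
      h0 _ (by simp only [List.length_append, List.length_cons]; omega), neg_zero]
  · intro l₁ x l₂
    exact h0 _ (by simp only [List.length_append, List.length_cons]; omega)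

theorem pot0_cusp (hF : WFace Γ Ξ V sm cusp) {ξ : Ξ} (hst : ∀ g : Γ, g • ξ = ξ) (g : Γ) (v : V) :
    cusp (g • v) = some ξ ↔ cusp v = some ξ := by
  constructor
  · intro h
    have h3 := hF.cusp_smul g⁻¹ (g • v)
    rw [inv_smul_smul, h, Option.map_some, hst] at h3
    exact h3
  · intro h
    rw [hF.cusp_smul, h, Option.map_some, hst]

theorem pot0_map (hF : WFace Γ Ξ V sm cusp) {ξ : Ξ} (hst : ∀ g : Γ, g • ξ = ξ)
    {β : V → V → k} (hβ : IsBd cusp (1 : Γ →* kˣ) β) {h : Γ → k}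
    (hh : ∀ v, cusp v = some ξ → ∀ g : Γ, β v (g • v) = h g) {v₀ : V} (hv₀ : cusp v₀ = some ξ)
    (g : Γ) (l : List V) :
    pot0 β cusp ξ v₀ (l.map (fun x => g • x)) = pot0 β cusp ξ v₀ l + h g * ind0 k cusp ξ l := by
  match l with
  | [] => simp [pot0, ind0]
  | x :: y :: l => simp [pot0, ind0]
  | [x] =>
    show pot0 β cusp ξ v₀ [g • x] = _
    by_cases hx : cusp x = some ξ
    · have hgx := (pot0_cusp hF hst g x).2 hx
      rw [pot0_one hgx, pot0_one hx, QOc1_one hx, mul_one, ← hh x hx g]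
      exact (hβ.add ξ _ _ _ hv₀ hx hgx).symm
    · have hgx : cusp (g • x) ≠ some ξ := fun h => hx ((pot0_cusp hF hst g x).1 h)
      rw [pot0_zero hgx, pot0_zero hx, QOc1_zero hx, mul_zero, add_zero]

theorem cr_pot0_map (hF : WFace Γ Ξ V sm cusp) {ξ : Ξ} (hst : ∀ g : Γ, g • ξ = ξ)
    {β : V → V → k} (hβ : IsBd cusp (1 : Γ →* kˣ) β) {h : Γ → k}
    (hh : ∀ v, cusp v = some ξ → ∀ g : Γ, β v (g • v) = h g) {v₀ : V} (hv₀ : cusp v₀ = some ξ)
    (g : Γ) (l : List V) :
    cr sm (pot0 β cusp ξ v₀) (l.map (fun x => g • x)) =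
      cr sm (pot0 β cusp ξ v₀) l + h g * cr sm (ind0 k cusp ξ) l := by
  unfold cr
  by_cases hl : Sml sm l
  · rw [if_pos hl, if_pos hl, if_pos ((sml_smul hF.smul_sm g l).2 hl), co_map]
    have h1 : (fun l' => pot0 β cusp ξ v₀ (l'.map (fun x => g • x))) =
        pot0 β cusp ξ v₀ + h g • ind0 k cusp ξ := by
      funext l'
      exact pot0_map hF hst hβ hh hv₀ g l'
    rw [h1, co_add, co_smul]
    rfl
  · rw [if_neg hl, if_neg hl, if_neg (fun h1 => hl ((sml_smul hF.smul_sm g l).1 h1)), mul_zero,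
      add_zero]

/-- the relative part of the coboundary of the potential -/
theorem exists_rr (hF : WFace Γ Ξ V sm cusp) {ξ : Ξ} (hfull : WFull Γ sm cusp ξ)
    (hst : ∀ g : Γ, g • ξ = ξ) {β : V → V → k} (hβ : IsBd cusp (1 : Γ →* kˣ) β)
    (hs : ∀ x y, β x y ≠ 0 → cusp x = some ξ) {h : Γ → k}
    (hh : ∀ v, cusp v = some ξ → ∀ g : Γ, β v (g • v) = h g) :
    ∃ r : List V → k, IsR sm cusp k 1 r ∧
      (∃ F : Set V, F.Finite ∧ ∀ l, r l ≠ 0 → ∃ g : Γ, ∀ x ∈ l, g • x ∈ F) ∧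
      (∀ (g : Γ) (l : List V), r (l.map (fun x => g • x)) = r l + h g * cr sm (ind0 k cusp ξ) l) ∧
      cr sm r = -cr sm (bl sm β) := by
  obtain ⟨v₀, hv₀⟩ := hF.ex ξ
  have hlen2 : ∀ l, (cr sm (pot0 β cusp ξ v₀) - bl sm β) l ≠ 0 → Sml sm l ∧ ∃ v w, l = [v, w] := by
    intro l hl
    by_cases hb : bl sm β l = 0
    · rw [Pi.sub_apply, hb, sub_zero] at hl
      have hsm : Sml sm l := by
        by_contra h
        exact hl (by simp [cr, h])
      refine ⟨hsm, ?_⟩
      rw [cr_of_sml _ hsm] at hl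
      have hlen : l.length = 2 := by
        by_contra hcon
        apply hl
        refine dl_eq_zero l fun l' _ h2 => ?_
        by_contra h3
        have := pot0_len h3
        omega
      obtain ⟨v, w, rfl⟩ := List.length_eq_two.1 hlen
      exact ⟨v, w, rfl⟩
    · have hlen := AlgH_bl_len sm β hb
      obtain ⟨v, w, rfl⟩ := List.length_eq_two.1 hlen
      refine ⟨?_, v, w, rfl⟩
      have hvw : sm v w := by
        by_contra h
        exact hb (AlgH_bl_not sm β h)
      intro a ha b hb'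
      simp only [List.mem_cons, List.not_mem_nil, or_false] at ha hb'
      rcases ha with rfl | rfl <;> rcases hb' with rfl | rfl
      · exact hF.refl _
      · exact hvw
      · exact hF.symm _ _ hvw
      · exact hF.refl _
  have hval : ∀ v w, Sml sm [v, w] → (cr sm (pot0 β cusp ξ v₀) - bl sm β) [v, w] =
      pot0 β cusp ξ v₀ [w] - pot0 β cusp ξ v₀ [v] - β v w := by
    intro v w hvw
    rw [Pi.sub_apply, cr_of_sml _ hvw, QOc1_co, AlgH_bl_pair sm β (hvw v (by simp) w (by simp))]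
  have hrl : ∀ l, (cr sm (pot0 β cusp ξ v₀) - bl sm β) l ≠ 0 → Rl sm cusp l := by
    intro l hl
    obtain ⟨hsm, v, w, rfl⟩ := hlen2 l hl
    refine ⟨hsm, ?_⟩
    rintro ⟨ζ, hζ⟩
    apply hl
    rw [hval v w hsm]
    have hv : cusp v = some ζ := hζ v (by simp)
    have hw : cusp w = some ζ := hζ w (by simp)
    by_cases h2 : ζ = ξ
    · subst h2
      rw [pot0_one hv, pot0_one hw, ← hβ.add ζ v₀ v w hv₀ hv hw]
      ring
    · have h3 : (some ζ : Option Ξ) ≠ some ξ := fun h => h2 (Option.some.inj h)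
      have h4 : β v w = 0 := by
        by_contra h5
        exact h3 (hv.symm.trans (hs v w h5))
      rw [pot0_zero (hv.trans_ne h3), pot0_zero (hw.trans_ne h3), h4, sub_self, sub_self]
  obtain ⟨F, hF1, hF2⟩ := hfull
  refine ⟨cr sm (pot0 β cusp ξ v₀) - bl sm β, ⟨?_, ?_, hrl⟩, ⟨F, hF1, ?_⟩, ?_, ?_⟩
  · exact (pot0_alt β ξ v₀).cr.sub (WfH_bl_alt hF hβ)
  · intro l hl
    obtain ⟨-, v, w, rfl⟩ := hlen2 l hl
    rfl
  · intro l hl
    have h0 := hrl l hl
    obtain ⟨hsm, v, w, rfl⟩ := hlen2 l hl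
    rw [hval v w hsm] at hl
    have h2 : ∃ x ∈ [v, w], cusp x = some ξ := by
      by_contra hcon
      push Not at hcon
      apply hl
      have h4 : β v w = 0 := by
        by_contra h5
        exact hcon v (by simp) (hs v w h5)
      rw [pot0_zero (hcon v (by simp)), pot0_zero (hcon w (by simp)), h4, sub_self, sub_self]
    obtain ⟨g, _, hg⟩ := hF2 _ h0 h2
    exact ⟨g, hg⟩
  · intro g l
    rw [Pi.sub_apply, Pi.sub_apply, cr_pot0_map hF hst hβ hh hv₀, WfH_bl_map hF hβ g l,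
      MonoidHom.one_apply, Units.val_one, one_mul]
    ring
  · rw [cr_sub, cr_cr, zero_sub]

end Q62
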