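import Pool.Agent.W_04c03c_h62q.QOd

/-!
# The Koszul data of a torus cusp
-/

namespace Q62

open RCan MulAction

variable {Γ Ξ V : Type*} [Group Γ] [MulAction Γ Ξ] [MulAction Γ V] {sm : V → V → Prop}
  {cusp : V → Option Ξ} {k : Type} [Field k]

/-- The chain `a, (b, c), d` of the Koszul complex over the class of the cusp; `d` is `t • z` up to a
coboundary with `t ≠ 0`. (This is contained in the proof of `orient`.) -/
theorem koszul_data (hF : WFace Γ Ξ V sm cusp) (hT : TFree Γ) {x y : Γ} (hxy : x * y = y * x)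
    (hgen : Subgroup.closure {x, y} = ⊤)
    (hind : ∀ a b : ℤ, x ^ a * y ^ b = 1 → a = 0 ∧ b = 0)
    {ξ η : Ξ} (hne : η ≠ ξ) (hfull : WFull Γ sm cusp ξ) (hst : ∀ g : Γ, g • ξ = ξ)
    (h1 : ∀ f : List V → k, IsD sm cusp k 1 f → cr sm f = 0 →
      ∃ e, IsD sm cusp k 0 e ∧ cr sm e = f)
    (z : DSub sm cusp k 3)
    (hz' : ∀ f : DSub sm cusp k 3, crW hF k 3 f = 0 → ∃ (c : k) (e : DSub sm cusp k 2),
      f = c • z + crW hF k 2 e) :
    ∃ (a : DSub sm cusp k 1) (b c : DSub sm cusp k 2) (t : k) (e : DSub sm cusp k 2), t ≠ 0 ∧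
      av (1 : Γ →* kˣ) a.1 = cr sm (ind0 k cusp ξ) ∧
      crW hF k 1 a = (trW hF k 2 x b - b) + (trW hF k 2 y c - c) ∧
      crW hF k 2 b = trW hF k 3 y (t • z + crW hF k 2 e) - (t • z + crW hF k 2 e) ∧
      -crW hF k 2 c = trW hF k 3 x (t • z + crW hF k 2 e) - (t • z + crW hF k 2 e) := by
  classical
  obtain ⟨a, ha⟩ := avF_surj (sm := sm) (cusp := cusp) (k := k) hF hT (1 : Γ →* kˣ) 1
    ⟨cr sm (ind0 k cusp ξ), cr_ind0_mem hF hfull hst⟩
  have h0 : avF hF (1 : Γ →* kˣ) 2 (crW hF k 1 a) = 0 := by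
    have h2 := crF_avF hF (1 : Γ →* kˣ) 1 a
    rw [ha] at h2
    refine h2.symm.trans ?_
    apply Subtype.ext
    exact cr_cr (sm := sm) (ind0 k cusp ξ)
  obtain ⟨b, c, hbc⟩ : ∃ b c : DSub sm cusp k 2,
      crW hF k 1 a = (trW hF k 2 x b - b) + (trW hF k 2 y c - c) := by
    have h2 : (crW hF k 1 a : DSub sm cusp k 2) ∈
        LinearMap.range (trW hF k 2 x - LinearMap.id) ⊔
          LinearMap.range (trW hF k 2 y - LinearMap.id) := by
      refine mem_of_av_zero hF hT 2 _ {x, y} hgen ?_ h0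
      rintro s hs e
      rcases hs with rfl | hs
      · exact Submodule.mem_sup_left ⟨e, rfl⟩
      · rw [Set.mem_singleton_iff] at hs
        subst hs
        exact Submodule.mem_sup_right ⟨e, rfl⟩
    obtain ⟨p, ⟨b, hb⟩, q, ⟨c, hc⟩, hpq⟩ := Submodule.mem_sup.1 h2
    refine ⟨b, c, ?_⟩
    rw [← hpq, ← hb, ← hc]
    rfl
  have hcrbc : trW hF k 3 x (crW hF k 2 b) - crW hF k 2 b =
      trW hF k 3 y (-crW hF k 2 c) - (-crW hF k 2 c) := by
    have h2 := crW_crW hF (n := 1) a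
    rw [hbc] at h2
    simp only [map_add, map_sub] at h2
    rw [crW_trW, crW_trW] at h2
    rw [map_neg]
    rw [← sub_eq_zero]
    rw [← h2]
    abel
  obtain ⟨d, hd1, hd2⟩ := koszul hF hT hxy hind (crW hF k 2 b) (-crW hF k 2 c) hcrbc
  have hd : crW hF k 3 d = 0 := by
    refine trW_fix_zero hF (y := y) (fun n hn => (hind 0 n (by rw [zpow_zero, one_mul, hn])).2) ?_
    have h2 := crW_crW hF (n := 2) b
    rw [hd1, map_sub, crW_trW] at h2
    exact sub_eq_zero.1 h2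
  have hnd : ¬ ∃ e, crW hF k 2 e = d := by
    rintro ⟨e', he'⟩
    obtain ⟨b₁, hb₁⟩ := exists_crW hF k (n := 1) (Or.inl rfl) (b - (trW hF k 2 y e' - e')) (by
      show crW hF k 2 (b - (trW hF k 2 y e' - e')) = 0
      rw [map_sub, map_sub, crW_trW, he', hd1, sub_self])
    obtain ⟨c₁, hc₁⟩ := exists_crW hF k (n := 1) (Or.inl rfl) (c + (trW hF k 2 x e' - e')) (by
      show crW hF k 2 (c + (trW hF k 2 x e' - e')) = 0
      rw [map_add, map_sub, crW_trW, he', ← hd2, add_neg_cancel])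
    have hXY : trW hF k 2 x (trW hF k 2 y e') = trW hF k 2 y (trW hF k 2 x e') := by
      rw [← trW_mul, ← trW_mul, hxy]
    have hb : b = (trW hF k 2 y e' - e') + crW hF k 1 b₁ := by
      rw [hb₁]
      abel
    have hc : c = -(trW hF k 2 x e' - e') + crW hF k 1 c₁ := by
      rw [hc₁]
      abel
    have hcr : crW hF k 1 (a - (trW hF k 1 x b₁ - b₁) - (trW hF k 1 y c₁ - c₁)) = 0 := by
      rw [map_sub, map_sub, map_sub, map_sub, crW_trW, crW_trW, hbc, hb, hc]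
      simp only [map_add, map_sub, map_neg]
      rw [hXY]
      abel
    obtain ⟨a₀, ha₀, ha₀'⟩ := h1 _ (a - (trW hF k 1 x b₁ - b₁) - (trW hF k 1 y c₁ - c₁)).2
      (congrArg Subtype.val hcr)
    have hav : ∀ (g : Γ) (f : DSub sm cusp k 1),
        avF hF (1 : Γ →* kˣ) 1 (trW hF k 1 g f - f) = 0 := by
      intro g f
      rw [map_sub, avF_trW, MonoidHom.one_apply, inv_one, one_smul, sub_self]
    have h3 : crF hF (1 : Γ →* kˣ) 0 (avF hF (1 : Γ →* kˣ) 0 ⟨a₀, ha₀⟩) =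
        avF hF (1 : Γ →* kˣ) 1 a := by
      rw [crF_avF]
      have h4 : crW hF k 0 ⟨a₀, ha₀⟩ = a - (trW hF k 1 x b₁ - b₁) - (trW hF k 1 y c₁ - c₁) :=
        Subtype.ext ha₀'
      rw [h4]
      show avF hF (1 : Γ →* kˣ) 1 (a - (trW hF k 1 x b₁ - b₁) - (trW hF k 1 y c₁ - c₁)) = _
      rw [map_sub, map_sub, hav, hav, sub_zero, sub_zero]
    rw [ha] at h3
    exact cr_ind0_ne hF hne (avF hF (1 : Γ →* kˣ) 0 ⟨a₀, ha₀⟩) (congrArg Subtype.val h3)
  obtain ⟨t, e, hte⟩ := hz' d hd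
  have ht : t ≠ 0 := by
    rintro rfl
    exact hnd ⟨e, by rw [hte, zero_smul, zero_add]⟩
  rw [hte] at hd1 hd2
  exact ⟨a, b, c, t, e, ht, congrArg Subtype.val ha, hbc, hd1, hd2⟩

end Q62
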