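import Pool.Agent.W_04c03c_h62i.IA
import Pool.Agent.W_04c03c_h62i.IB
import Pool.Agent.W_04c03c_h62i.IC
import Pool.Agent.W_04c03c_h58.WfG

/-!
# The value of a functional on the cocycles of a torus cusp
-/

namespace Q62

open RCan MulAction

variable {Γ Ξ V : Type*} [Group Γ] [MulAction Γ Ξ] [MulAction Γ V] {sm : V → V → Prop}
  {cusp : V → Option Ξ} {k : Type} [Field k]

/-- The value of a functional on the cocycles of a torus cusp, for the group `Γ ≅ ℤ²` of the cusp. -/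
theorem iso_local (hF : WFace Γ Ξ V sm cusp) (hT : TFree Γ) {x y : Γ} (hxy : x * y = y * x)
    (hgen : Subgroup.closure {x, y} = ⊤)
    (hind : ∀ a b : ℤ, x ^ a * y ^ b = 1 → a = 0 ∧ b = 0)
    {ξ η : Ξ} (hne : η ≠ ξ) (hfull : WFull Γ sm cusp ξ) (hst : ∀ g : Γ, g • ξ = ξ)
    (h1 : ∀ f : List V → k, IsD sm cusp k 1 f → cr sm f = 0 →
      ∃ e, IsD sm cusp k 0 e ∧ cr sm e = f)
    (z : DSub sm cusp k 3)
    (hz' : ∀ f : DSub sm cusp k 3, crW hF k 3 f = 0 → ∃ (c : k) (e : DSub sm cusp k 2),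
      f = c • z + crW hF k 2 e) :
    ∃ t : k, t ≠ 0 ∧ ∀ (ex ey : DSub sm cusp k 2), crW hF k 2 ex = trW hF k 3 x z - z →
      crW hF k 2 ey = trW hF k 3 y z - z →
      ∀ φ : EQf sm cusp (1 : Γ →* kˣ) 2 →ₗ[k] k,
      (∀ c : EQf sm cusp (1 : Γ →* kˣ) 1, φ (crF hF 1 1 c) = 0) →
      ∀ β : V → V → k, IsBd cusp (1 : Γ →* kˣ) β → (∀ u v, β u v ≠ 0 → cusp u = some ξ) →
      ∀ h : Γ → k, (∀ a b, h (a * b) = h a + h b) →
      (∀ v, cusp v = some ξ → ∀ g : Γ, β v (g • v) = h g) →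
      ∀ c : EQf sm cusp (1 : Γ →* kˣ) 2, c.1 = cr sm (bl sm β) →
      φ c = t * (h x * φ (avF hF 1 2 ey) - h y * φ (avF hF 1 2 ex)) := by
  obtain ⟨a, b, c, t, e, ht, ha, hbc, hb, hc⟩ :=
    koszul_data hF hT hxy hgen hind hne hfull hst h1 z hz'
  refine ⟨t, ht, ?_⟩
  intro ex ey hex hey φ hφ β hβ hs h hh hβh w hw
  -- the values at `b` and `c`
  have hinv : ∀ (g : Γ) (f : DSub sm cusp k 2),
      φ (avF hF (1 : Γ →* kˣ) 2 (trW hF k 2 g f)) = φ (avF hF (1 : Γ →* kˣ) 2 f) := by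
    intro g f
    rw [WfG_phi_avF_trW, MonoidHom.one_apply, inv_one, Units.val_one, one_mul]
  have hvb : φ (avF hF (1 : Γ →* kˣ) 2 b) = t * φ (avF hF (1 : Γ →* kˣ) 2 ey) := by
    have h2 : crW hF k 2 b = crW hF k 2 (t • ey + (trW hF k 2 y e - e)) := by
      rw [hb, map_add (crW hF k 2), map_smul (crW hF k 2), map_sub (crW hF k 2), crW_trW, hey,
        map_add (trW hF k 3 y), map_smul (trW hF k 3 y), smul_sub]
      abel
    have h3 := dual_indepW hF 1 φ hφ _ _ h2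
    simp only [map_add, map_smul, map_sub, hinv, sub_self, add_zero, smul_eq_mul] at h3
    exact h3
  have hvc : φ (avF hF (1 : Γ →* kˣ) 2 c) = -(t * φ (avF hF (1 : Γ →* kˣ) 2 ex)) := by
    have h2 : crW hF k 2 c = crW hF k 2 (-(t • ex + (trW hF k 2 x e - e))) := by
      have h3 : crW hF k 2 c = -(-crW hF k 2 c) := (neg_neg _).symm
      rw [h3, hc, map_neg, map_add (crW hF k 2), map_smul (crW hF k 2), map_sub (crW hF k 2),
        crW_trW, hex, map_add (trW hF k 3 x), map_smul (trW hF k 3 x), smul_sub]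
      abel
    have h3 := dual_indepW hF 1 φ hφ _ _ h2
    simp only [map_neg, map_add, map_smul, map_sub, hinv, sub_self, add_zero, smul_eq_mul] at h3
    exact h3
  -- the relative cochain
  obtain ⟨r, hr1, ⟨F, hF1, hF2⟩, hr3, hr4⟩ := exists_rr hF hfull hst hβ hs hβh
  obtain ⟨hψ1, F', hF1', hF2'⟩ := avw_rel hF h a.2
  have hmem : avw h a.1 - r ∈ EQf sm cusp (1 : Γ →* kˣ) 1 := by
    refine ⟨⟨hψ1.sub hr1, ?_⟩, F ∪ F', hF1.union hF1', ?_⟩
    · intro g l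
      rw [Pi.sub_apply, Pi.sub_apply, avw_map hF h hh a.2, hr3, ha, MonoidHom.one_apply,
        Units.val_one, one_mul]
      ring
    · intro l hl
      by_cases h2 : r l = 0
      · have h3 : avw h a.1 l ≠ 0 := by
          intro h3
          apply hl
          rw [Pi.sub_apply, h2, h3, sub_zero]
        obtain ⟨g, hg⟩ := hF2' l h3
        exact ⟨g, fun x hx => Or.inr (hg x hx)⟩
      · obtain ⟨g, hg⟩ := hF2 l h2
        exact ⟨g, fun x hx => Or.inl (hg x hx)⟩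
  have hcrψ : cr sm (avw h a.1) =
      -(h x • av (1 : Γ →* kˣ) b.1) - h y • av (1 : Γ →* kˣ) c.1 := by
    rw [cr_avw hF h 1 a]
    have h2 : cr sm a.1 = (tr x b.1 - b.1) + (tr y c.1 - c.1) := congrArg Subtype.val hbc
    have hDx : IsD sm cusp k 2 (tr x b.1) := b.2.tr hF.smul_sm hF.cusp_smul x
    have hDy : IsD sm cusp k 2 (tr y c.1) := c.2.tr hF.smul_sm hF.cusp_smul y
    have hDx' : IsD sm cusp k 2 (tr x b.1 - b.1) := (trW hF k 2 x b - b).2
    have hDy' : IsD sm cusp k 2 (tr y c.1 - c.1) := (trW hF k 2 y c - c).2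
    rw [h2, avw_add hF h hDx' hDy', avw_sub hF h hDx b.2, avw_sub hF h hDy c.2,
      avw_tr hF h hh b.2, avw_tr hF h hh c.2]
    abel
  have hwe : w = crF hF (1 : Γ →* kˣ) 1 ⟨avw h a.1 - r, hmem⟩ +
      (h x • avF hF (1 : Γ →* kˣ) 2 b + h y • avF hF (1 : Γ →* kˣ) 2 c) := by
    apply Subtype.ext
    show w.1 = cr sm (avw h a.1 - r) + (h x • av (1 : Γ →* kˣ) b.1 + h y • av (1 : Γ →* kˣ) c.1)
    rw [cr_sub, hcrψ, hr4, hw]
    abel
  rw [hwe, map_add, hφ, zero_add, map_add, map_smul, map_smul, hvb, hvc, smul_eq_mul, smul_eq_mul]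
  ring

end Q62
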