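import Pool.Agent.W_04c03c_h62i.ID
import Pool.Agent.W_04c03c_h62q.GS3

/-!
# The value of a functional on the cocycles of a torus cusp of any group
-/

namespace Q62

open RCan MulAction

variable {Γ Ξ V : Type*} [Group Γ] [MulAction Γ Ξ] [MulAction Γ V] {sm : V → V → Prop}
  {cusp : V → Option Ξ} {k : Type} [Field k]

theorem char_one (χ : Γ →* kˣ) (ξ : Ξ) (h : ∀ g ∈ stabilizer Γ ξ, χ g = 1) :
    χ.comp (stabilizer Γ ξ).subtype = 1 := by
  ext g
  rw [MonoidHom.comp_apply, Subgroup.coe_subtype, h g g.2, MonoidHom.one_apply]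

/-- The value of a functional on the cocycles of a torus cusp: the constant `t` does not depend on
the characters, the functional and the cocycle. -/
theorem iso_cusp (hF : WFace Γ Ξ V sm cusp) {ξ η : Ξ} (hne : η ≠ ξ)
    (hT : TFree (stabilizer Γ ξ)) (hfull : WFull Γ sm cusp ξ)
    {x y : stabilizer Γ ξ} (hxy : x * y = y * x) (hgen : Subgroup.closure {x, y} = ⊤)
    (hind : ∀ a b : ℤ, x ^ a * y ^ b = 1 → a = 0 ∧ b = 0)
    (h1 : ∀ f : List V → k, IsD sm cusp k 1 f → cr sm f = 0 →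
      ∃ e, IsD sm cusp k 0 e ∧ cr sm e = f)
    (z : DSub sm cusp k 3)
    (hz' : ∀ f : DSub sm cusp k 3, crW hF k 3 f = 0 → ∃ (c : k) (e : DSub sm cusp k 2),
      f = c • z + crW hF k 2 e) :
    ∃ t : k, t ≠ 0 ∧ ∀ (χ ω : Γ →* kˣ), (∀ g ∈ stabilizer Γ ξ, χ g = 1) →
      (∀ g ∈ stabilizer Γ ξ, ω g = 1) → ∀ e : Γ → DSub sm cusp k 2,
      (∀ g, crW hF k 2 (e g) = trW hF k 3 g z - (ω g : k) • z) →
      ∀ φ : EQf sm cusp χ 2 →ₗ[k] k, (∀ c : EQf sm cusp χ 1, φ (crF hF χ 1 c) = 0) →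
      ∀ β : V → V → k, IsBd cusp χ β → (∀ u v, β u v ≠ 0 → ∃ g : Γ, cusp u = some (g • ξ)) →
      ∀ h : Additive (stabilizer Γ ξ) →+ k,
      (∀ v, cusp v = some ξ → ∀ g : stabilizer Γ ξ, β v ((g : Γ) • v) = h (Additive.ofMul g)) →
      ∀ c : EQf sm cusp χ 2, c.1 = cr sm (bl sm β) →
      φ c = t * (h (Additive.ofMul x) * φ (avF hF χ 2 (e y)) -
        h (Additive.ofMul y) * φ (avF hF χ 2 (e x))) := by
  classical
  obtain ⟨t, ht, key⟩ := iso_local (hF.sub (stabilizer Γ ξ)) hT hxy hgen hind hne hfull.stab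
    (fun g => g.2) h1 z hz'
  refine ⟨t, ht, ?_⟩
  intro χ ω hχ hω e he φ hφ β hβ hs h hh c hc
  have hχ1 : χ.comp (stabilizer Γ ξ).subtype = 1 := char_one χ ξ hχ
  obtain ⟨T₁, hT₁⟩ := exists_transferP (sm := sm) (cusp := cusp) hF χ (stabilizer Γ ξ) hT 1
  obtain ⟨T₂, hT₂⟩ := exists_transferP (sm := sm) (cusp := cusp) hF χ (stabilizer Γ ξ) hT 2
  have hφ' : ∀ c : EQf sm cusp (χ.comp (stabilizer Γ ξ).subtype) 1,
      (φ.comp T₂) (crF (hF.sub (stabilizer Γ ξ)) (χ.comp (stabilizer Γ ξ).subtype) 1 c) = 0 := by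
    intro c
    obtain ⟨f, rfl⟩ := avF_surj (hF.sub (stabilizer Γ ξ)) hT (χ.comp (stabilizer Γ ξ).subtype) 1 c
    rw [crF_avF, LinearMap.comp_apply, hT₂]
    have h1 : crW (hF.sub (stabilizer Γ ξ)) k 1 f = crW hF k 1 f := rfl
    rw [h1, ← crF_avF]
    exact hφ _
  have hmem : cr sm (bl sm (bP cusp ξ β)) ∈ EQf sm cusp (χ.comp (stabilizer Γ ξ).subtype) 2 := by
    refine cr_bl_memF (hF.sub (stabilizer Γ ξ)) (ι := Unit) (fun _ => ξ) (fun _ => hfull.stab)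
      (bP_isBd hF hβ ξ) ?_
    intro x y hxy
    refine ⟨(), 1, ?_⟩
    rw [one_smul]
    by_contra h
    exact hxy (if_neg fun h' => h h'.1)
  have hTc : T₂ ⟨_, hmem⟩ = c := by
    obtain ⟨f', hf'⟩ := avF_surj (hF.sub (stabilizer Γ ξ)) hT (χ.comp (stabilizer Γ ξ).subtype) 2
      ⟨_, hmem⟩
    rw [← hf', hT₂]
    apply Subtype.ext
    funext l
    show av χ f'.1 l = c.1 l
    have h2 : av (χ.comp (stabilizer Γ ξ).subtype) f'.1 = cr sm (bl sm (bP cusp ξ β)) :=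
      congrArg Subtype.val hf'
    rw [av_quot hF χ (stabilizer Γ ξ) f'.2 l, h2, hc, cr_bl_quot hF hβ ξ hs l]
  have hval : ∀ f : DSub sm cusp k 2, (φ.comp T₂) (avF (hF.sub (stabilizer Γ ξ))
      (χ.comp (stabilizer Γ ξ).subtype) 2 f) = φ (avF hF χ 2 f) := by
    intro f
    rw [LinearMap.comp_apply, hT₂]
  have hbd := bP_isBd hF hβ ξ
  -- the local formula
  have key2 : ∀ (ρ : stabilizer Γ ξ →* kˣ), ρ = 1 → ∀ φ' : EQf sm cusp ρ 2 →ₗ[k] k,
      (∀ c : EQf sm cusp ρ 1, φ' (crF (hF.sub (stabilizer Γ ξ)) ρ 1 c) = 0) →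
      ∀ β' : V → V → k, IsBd cusp ρ β' → (∀ u v, β' u v ≠ 0 → cusp u = some ξ) →
      (∀ v, cusp v = some ξ → ∀ g : stabilizer Γ ξ, β' v (g • v) = h (Additive.ofMul g)) →
      ∀ c' : EQf sm cusp ρ 2, c'.1 = cr sm (bl sm β') →
      φ' c' = t * (h (Additive.ofMul x) * φ' (avF (hF.sub (stabilizer Γ ξ)) ρ 2 (e y)) -
        h (Additive.ofMul y) * φ' (avF (hF.sub (stabilizer Γ ξ)) ρ 2 (e x))) := by
    rintro ρ rfl φ' hφ' β' hβ' hs' hh' c' hc'
    refine key (e x) (e y) ?_ ?_ φ' hφ' β' hβ' hs' (fun g => h (Additive.ofMul g)) ?_ hh' c' hc'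
    · have h3 := he (x : Γ)
      rw [hω _ x.2, Units.val_one, one_smul] at h3
      exact h3
    · have h3 := he (y : Γ)
      rw [hω _ y.2, Units.val_one, one_smul] at h3
      exact h3
    · intro a b
      exact map_add h (Additive.ofMul a) (Additive.ofMul b)
  have h4 := key2 _ hχ1 (φ.comp T₂) hφ' (bP cusp ξ β) hbd (fun u v huv => by
      by_contra h5
      exact huv (if_neg fun h' => h5 h'.1)) (fun v hv g => by
      have hgv : cusp ((g : Γ) • v) = some ξ := by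
        rw [hF.cusp_smul, hv, Option.map_some]
        exact congrArg some g.2
      have h5 : bP cusp ξ β v ((g : Γ) • v) = β v ((g : Γ) • v) := if_pos ⟨hv, hgv⟩
      rw [← hh v hv g, ← h5]
      rfl) ⟨_, hmem⟩ rfl
  rw [hval, hval, LinearMap.comp_apply, hTc] at h4
  exact h4

end Q62
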