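import Pool.Agent.W_04c03c_h58.WfG

/-!
# Every crossed homomorphism comes from a functional
-/

namespace Q62

open RCan MulAction

variable {Γ Ξ V : Type*} [Group Γ] [MulAction Γ Ξ] [MulAction Γ V] {sm : V → V → Prop}
  {cusp : V → Option Ξ} {k : Type} [Field k]

/-- The class of a cocycle in degree three, as a linear functional on all cochains. -/
theorem exists_class (hF : WFace Γ Ξ V sm cusp) (hT : TFree Γ) (ω : Γ →* kˣ)
    (z : DSub sm cusp k 3) (hz : crW hF k 3 z = 0)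
    (hz' : ∀ f : DSub sm cusp k 3, crW hF k 3 f = 0 → ∃ (c : k) (e : DSub sm cusp k 2),
      f = c • z + crW hF k 2 e) (hnz : ¬ ∃ e, crW hF k 2 e = z)
    (he : ∀ g, ∃ e : DSub sm cusp k 2, crW hF k 2 e = trW hF k 3 g z - (ω g : k) • z) :
    ∃ C : DSub sm cusp k 3 →ₗ[k] k, (∀ g f, C (trW hF k 3 g f) = (ω g : k) * C f) ∧ C z = 1 ∧
      ∀ f, C (crW hF k 2 f) = 0 := by
  classical
  choose e he using he
  -- the functional on the cocycles
  let Θ : (k × DSub sm cusp k 2) →ₗ[k] DSub sm cusp k 3 :=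
    LinearMap.coprod (LinearMap.toSpanSingleton k _ z) (crW hF k 2)
  let Φ : (k × DSub sm cusp k 2) →ₗ[k] k := LinearMap.fst k k _
  have hΘ : ∀ (c : k) (f : DSub sm cusp k 2), Θ (c, f) = c • z + crW hF k 2 f := by
    intro c f
    rfl
  have hmem : Φ ∈ LinearMap.range Θ.dualMap := by
    rw [LinearMap.range_dualMap_eq_dualAnnihilator_ker, Submodule.mem_dualAnnihilator]
    rintro ⟨c, f⟩ hcf
    rw [LinearMap.mem_ker, hΘ] at hcf
    show c = 0
    by_contra hne
    apply hnz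
    refine ⟨-(c⁻¹ • f), ?_⟩
    have h1 : crW hF k 2 f = -(c • z) := eq_neg_of_add_eq_zero_right hcf
    rw [map_neg, map_smul, h1, smul_neg, neg_neg, smul_smul, inv_mul_cancel₀ hne, one_smul]
  obtain ⟨ψ, hψ⟩ := hmem
  have hψ' : ∀ (c : k) (f : DSub sm cusp k 2), ψ (c • z + crW hF k 2 f) = c := by
    intro c f
    rw [← hΘ]
    have h2 := LinearMap.congr_fun hψ (c, f)
    exact h2
  obtain ⟨ρ, hρ1, hρ2, hρ3⟩ := exists_retrW (sm := sm) (cusp := cusp) hF hT k 3 le_rfl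
  refine ⟨ψ.comp ρ, ?_, ?_, ?_⟩
  · intro g f
    rw [LinearMap.comp_apply, LinearMap.comp_apply, hρ1]
    obtain ⟨c₁, f₁, h1⟩ := hz' (ρ f) (hρ2 f)
    have h2 : trW hF k 3 g (ρ f) =
        (c₁ * (ω g : k)) • z + crW hF k 2 (c₁ • e g + trW hF k 2 g f₁) := by
      rw [h1, map_add, map_smul, map_add, map_smul, crW_trW, he, smul_sub, smul_smul]
      abel
    rw [h2, h1, hψ', hψ']
    ring
  · rw [LinearMap.comp_apply, hρ3 _ hz]
    have h2 := hψ' 1 0
    rw [one_smul, map_zero, add_zero] at h2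
    exact h2
  · intro f
    rw [LinearMap.comp_apply, hρ3 _ (crW_crW hF f)]
    have h2 := hψ' 0 f
    rw [zero_smul, zero_add] at h2
    exact h2

/-- An equivariant map of the cochains of degree three to the group ring which lifts a
semi-invariant functional. -/
theorem exists_groupRing (hF : WFace Γ Ξ V sm cusp) (hT : TFree Γ) (ω : Γ →* kˣ)
    (C : DSub sm cusp k 3 →ₗ[k] k) (hC : ∀ g f, C (trW hF k 3 g f) = (ω g : k) * C f) :
    ∃ L : DSub sm cusp k 3 →ₗ[k] (Γ →₀ k),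
      (∀ g f, L (trW hF k 3 g f) = (L f).mapDomain (g * ·)) ∧
      ∀ f, Finsupp.linearCombination k (fun g => (ω g : k)) (L f) = C f := by
  classical
  obtain ⟨R, b, -, -, hb, -⟩ := exists_basisW hF hT k 3
  have hL : ∀ p : R × Γ, b.constr k (fun p : R × Γ => C (b (p.1, 1)) • Finsupp.single p.2 (1 : k))
      (b p) = C (b (p.1, 1)) • Finsupp.single p.2 (1 : k) := fun p => b.constr_basis k _ p
  refine ⟨b.constr k (fun p : R × Γ => C (b (p.1, 1)) • Finsupp.single p.2 (1 : k)), ?_, ?_⟩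
  · intro g f
    have h1 : (b.constr k (fun p : R × Γ => C (b (p.1, 1)) • Finsupp.single p.2 (1 : k))) ∘ₗ
        (trW hF k 3 g) = (Finsupp.lmapDomain k k (g * ·)) ∘ₗ
        (b.constr k (fun p : R × Γ => C (b (p.1, 1)) • Finsupp.single p.2 (1 : k))) := by
      apply b.ext
      rintro ⟨s, h⟩
      rw [LinearMap.comp_apply, LinearMap.comp_apply, hb, hL, hL, map_smul,
        Finsupp.lmapDomain_apply, Finsupp.mapDomain_single]
    exact LinearMap.congr_fun h1 f
  · intro f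
    have h1 : (Finsupp.linearCombination k (fun g => (ω g : k))) ∘ₗ
        (b.constr k (fun p : R × Γ => C (b (p.1, 1)) • Finsupp.single p.2 (1 : k))) = C := by
      apply b.ext
      rintro ⟨s, h⟩
      rw [LinearMap.comp_apply, hL, map_smul, Finsupp.linearCombination_single, one_smul,
        smul_eq_mul, mul_comm, ← hC, hb, mul_one]
    exact LinearMap.congr_fun h1 f

/-- Every crossed homomorphism comes from a functional, up to a principal one. -/
theorem delta_surj (hF : WFace Γ Ξ V sm cusp) (hT : TFree Γ) (χ ω : Γ →* kˣ)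
    (z : DSub sm cusp k 3) (hz : crW hF k 3 z = 0)
    (hz' : ∀ f : DSub sm cusp k 3, crW hF k 3 f = 0 → ∃ (c : k) (e : DSub sm cusp k 2),
      f = c • z + crW hF k 2 e) (hnz : ¬ ∃ e, crW hF k 2 e = z)
    (e : Γ → DSub sm cusp k 2)
    (he : ∀ g, crW hF k 2 (e g) = trW hF k 3 g z - (ω g : k) • z)
    (d : Γ → k) (hd : ∀ g h, d (g * h) = (ω h : k) * d g + (((χ g)⁻¹ : kˣ) : k) * d h) :
    ∃ (φ : EQf sm cusp χ 2 →ₗ[k] k) (a : k), (∀ c : EQf sm cusp χ 1, φ (crF hF χ 1 c) = 0) ∧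
      ∀ g, φ (avF hF χ 2 (e g)) = d g + ((((χ g)⁻¹ : kˣ) : k) - (ω g : k)) * a := by
  classical
  obtain ⟨C, hC1, hC2, hC3⟩ := exists_class hF hT ω z hz hz' hnz (fun g => ⟨e g, he g⟩)
  obtain ⟨L, hL1, hL2⟩ := exists_groupRing hF hT ω C hC1
  obtain ⟨D, hD⟩ : ∃ D : (Γ →₀ k) →ₗ[k] k, ∀ g c, D (Finsupp.single g c) = c * d g :=
    ⟨Finsupp.linearCombination k d, fun g c => by rw [Finsupp.linearCombination_single, smul_eq_mul]⟩
  have hDm : ∀ (g : Γ) (m : Γ →₀ k), D (m.mapDomain (g * ·)) =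
      Finsupp.linearCombination k (fun g => (ω g : k)) m * d g + (((χ g)⁻¹ : kˣ) : k) * D m := by
    intro g m
    induction m using Finsupp.induction_linear with
    | zero => simp
    | add x y hx hy =>
      rw [Finsupp.mapDomain_add, map_add, map_add, map_add, hx, hy]
      ring
    | single s n =>
      rw [Finsupp.mapDomain_single, hD, hD, Finsupp.linearCombination_single, hd, smul_eq_mul]
      ring
  obtain ⟨Φ, hΦ⟩ : ∃ Φ : DSub sm cusp k 2 →ₗ[k] k, ∀ f, Φ f = D (L (crW hF k 2 f)) :=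
    ⟨D ∘ₗ L ∘ₗ crW hF k 2, fun f => rfl⟩
  have hΦ1 : ∀ g f, Φ (trW hF k 2 g f) = (((χ g)⁻¹ : kˣ) : k) * Φ f := by
    intro g f
    rw [hΦ, hΦ, crW_trW, hL1, hDm, hL2, hC3, zero_mul, zero_add]
  -- factor through the average
  have hsurj := avF_surj (sm := sm) (cusp := cusp) (k := k) hF hT χ 2
  have hmem : Φ ∈ LinearMap.range (avF (sm := sm) (cusp := cusp) (k := k) hF χ 2).dualMap := by
    rw [LinearMap.range_dualMap_eq_dualAnnihilator_ker, Submodule.mem_dualAnnihilator]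
    intro f hf
    exact avF_ker hF hT χ 2 Φ hΦ1 hf
  obtain ⟨φ, hφ⟩ := hmem
  have hφ' : ∀ f, φ (avF hF χ 2 f) = Φ f := fun f => LinearMap.congr_fun hφ f
  refine ⟨φ, D (L z), ?_, ?_⟩
  · intro c
    obtain ⟨f, rfl⟩ := avF_surj hF hT χ 1 c
    rw [crF_avF, hφ', hΦ, crW_crW, map_zero, map_zero]
  · intro g
    rw [hφ', hΦ, he, map_sub, map_sub, hL1, map_smul, map_smul, hDm, hL2, hC2, smul_eq_mul]
    ring

end Q62
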