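import Pool.Agent.W_04c03c_h62q.QOc1
import Pool.Agent.W_04c03c_h58.WfH
import Pool.Agent.W_04c03c_h58.AlgK

/-!
# The cocycle on the cusps of a crossed homomorphism
-/

namespace Q62

open RCan MulAction

variable {Γ Ξ V : Type*} [Group Γ] [MulAction Γ Ξ] [MulAction Γ V] {sm : V → V → Prop}
  {cusp : V → Option Ξ} {k : Type} [Field k]

/-- A crossed homomorphism is given by a function on the vertices. -/
theorem exists_potential (hF : WFace Γ Ξ V sm cusp) (χ : Γ →* kˣ) (D : Γ → k)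
    (hD : ∀ g h, D (g * h) = D g + (χ g : k) * D h) :
    ∃ f : V → k, ∀ g v, f (g • v) = D g + (χ g : k) * f v := by
  obtain ⟨S, hS⟩ := AlgI_sec (H := Γ) (W := V) hF.free
  refine ⟨fun v => D (S v), fun g v => ?_⟩
  show D (S (g • v)) = _
  rw [hS, hD]

open Classical in
/-- the differences of `f` on the cusps in `O` -/
noncomputable def bdO (f : V → k) (cusp : V → Option Ξ) (O : Set Ξ) : V → V → k :=
  fun u v => if ∃ ζ ∈ O, cusp u = some ζ ∧ cusp v = some ζ then f v - f u else 0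

theorem bdO_pos (f : V → k) {O : Set Ξ} {u v : V} {ζ : Ξ} (h : ζ ∈ O) (hu : cusp u = some ζ)
    (hv : cusp v = some ζ) : bdO f cusp O u v = f v - f u :=
  if_pos ⟨ζ, h, hu, hv⟩

theorem bdO_neg (f : V → k) {O : Set Ξ} {u v : V}
    (h : ¬ ∃ ζ ∈ O, cusp u = some ζ ∧ cusp v = some ζ) : bdO f cusp O u v = 0 :=
  if_neg h

theorem bdO_isBd (hF : WFace Γ Ξ V sm cusp) {χ : Γ →* kˣ} {D : Γ → k} {f : V → k}
    (hf : ∀ (g : Γ) v, f (g • v) = D g + (χ g : k) * f v) {O : Set Ξ}
    (hO : ∀ (g : Γ), ∀ ζ ∈ O, g • ζ ∈ O) : IsBd cusp χ (bdO f cusp O) := by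
  have hc : ∀ (g : Γ) (v : V) (ζ : Ξ), cusp v = some ζ → cusp (g • v) = some (g • ζ) := by
    intro g v ζ h
    rw [hF.cusp_smul, h, Option.map_some]
  refine ⟨?_, ?_, ?_⟩
  · intro x y h
    apply bdO_neg
    rintro ⟨ζ, -, h1, h2⟩
    exact h ⟨ζ, h1, h2⟩
  · intro ζ x y z hx hy hz
    by_cases h : ζ ∈ O
    · rw [bdO_pos f h hx hy, bdO_pos f h hy hz, bdO_pos f h hx hz]
      ring
    · have h0 : ∀ a b, cusp a = some ζ → bdO f cusp O a b = 0 := by
        intro a b ha
        apply bdO_neg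
        rintro ⟨ζ', h1, h2, -⟩
        rw [ha] at h2
        exact h (Option.some.inj h2 ▸ h1)
      rw [h0 x y hx, h0 y z hy, h0 x z hx, add_zero]
  · intro g x y
    by_cases h : ∃ ζ ∈ O, cusp x = some ζ ∧ cusp y = some ζ
    · obtain ⟨ζ, h1, hx, hy⟩ := h
      rw [bdO_pos f h1 hx hy, bdO_pos f (hO g ζ h1) (hc g x ζ hx) (hc g y ζ hy), hf, hf]
      ring
    · rw [bdO_neg f h, bdO_neg, mul_zero]
      rintro ⟨ζ, h1, hx, hy⟩
      refine h ⟨g⁻¹ • ζ, hO g⁻¹ ζ h1, ?_, ?_⟩
      · have := hc g⁻¹ _ _ hx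
        rwa [inv_smul_smul] at this
      · have := hc g⁻¹ _ _ hy
        rwa [inv_smul_smul] at this

/-- `f` as a cochain of degree zero -/
def fn0 (f : V → k) : List V → k
  | [v] => f v
  | _ => 0

theorem fn0_len {f : V → k} {l : List V} (h : fn0 f l ≠ 0) : l.length = 1 := by
  match l with
  | [] => exact absurd rfl h
  | [x] => rfl
  | x :: y :: l => exact absurd rfl h

theorem fn0_alt (f : V → k) : Alt (fn0 f) := by
  have h0 : ∀ l : List V, l.length ≠ 1 → fn0 f l = 0 := by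
    intro l hl
    by_contra h
    exact hl (fn0_len h)
  constructor
  · intro l₁ x y l₂
    rw [h0 _ (by simp only [List.length_append, List.length_cons]; omega),
      h0 _ (by simp only [List.length_append, List.length_cons]; omega), neg_zero]
  · intro l₁ x l₂
    exact h0 _ (by simp only [List.length_append, List.length_cons]; omega)

/-- The cocycle on all cusps of a crossed homomorphism is a coboundary of a relative cochain with
support finite modulo the group, if the relative lists are finite modulo the group. -/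
theorem exists_e1 (hF : WFace Γ Ξ V sm cusp)
    (hfin : ∃ F : Set V, F.Finite ∧ ∀ l, Rl sm cusp l → ∃ g : Γ, ∀ x ∈ l, g • x ∈ F)
    {χ : Γ →* kˣ} {D : Γ → k} {f : V → k}
    (hf : ∀ (g : Γ) v, f (g • v) = D g + (χ g : k) * f v) :
    ∃ e : EQf sm cusp χ 1, cr sm e.1 = cr sm (bl sm (bdO f cusp Set.univ)) := by
  have hβ : IsBd cusp χ (bdO f cusp Set.univ) := bdO_isBd hF hf (fun _ _ _ => trivial)
  have hlen2 : ∀ l, (bl sm (bdO f cusp Set.univ) - cr sm (fn0 f)) l ≠ 0 →
      Sml sm l ∧ ∃ v w, l = [v, w] := by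
    intro l hl
    by_cases hb : bl sm (bdO f cusp Set.univ) l = 0
    · rw [Pi.sub_apply, hb, zero_sub, neg_ne_zero] at hl
      have hsm : Sml sm l := by
        by_contra h
        exact hl (by simp [cr, h])
      refine ⟨hsm, ?_⟩
      rw [cr_of_sml _ hsm] at hl
      have hlen : l.length = 2 := by
        by_contra hcon
        apply hl
        refine dl_eq_zero l fun l' _ h2 => ?_
        by_contra h3
        have := fn0_len h3
        omega
      obtain ⟨v, w, rfl⟩ := List.length_eq_two.1 hlen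
      exact ⟨v, w, rfl⟩
    · have hlen := AlgH_bl_len sm _ hb
      obtain ⟨v, w, rfl⟩ := List.length_eq_two.1 hlen
      refine ⟨?_, v, w, rfl⟩
      have hvw : sm v w := by
        by_contra h
        exact hb (AlgH_bl_not sm _ h)
      intro a ha b hb'
      simp only [List.mem_cons, List.not_mem_nil, or_false] at ha hb'
      rcases ha with rfl | rfl <;> rcases hb' with rfl | rfl
      · exact hF.refl _
      · exact hvw
      · exact hF.symm _ _ hvw
      · exact hF.refl _
  have hval : ∀ v w, Sml sm [v, w] → (bl sm (bdO f cusp Set.univ) - cr sm (fn0 f)) [v, w] =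
      bdO f cusp Set.univ v w - (f w - f v) := by
    intro v w hvw
    rw [Pi.sub_apply, cr_of_sml _ hvw, QOc1_co, AlgH_bl_pair sm _ (hvw v (by simp) w (by simp))]
    rfl
  have hrl : ∀ l, (bl sm (bdO f cusp Set.univ) - cr sm (fn0 f)) l ≠ 0 → Rl sm cusp l := by
    intro l hl
    obtain ⟨hsm, v, w, rfl⟩ := hlen2 l hl
    refine ⟨hsm, ?_⟩
    rintro ⟨ζ, hζ⟩
    apply hl
    rw [hval v w hsm, bdO_pos f (Set.mem_univ ζ) (hζ v (by simp)) (hζ w (by simp)), sub_self]
  have hcrf : ∀ (g : Γ) (l : List V), cr sm (fn0 f) (l.map (fun x => g • x)) =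
      (χ g : k) * cr sm (fn0 f) l := by
    intro g l
    by_cases hsm : Sml sm l
    · have hsm' := (sml_smul hF.smul_sm g l).2 hsm
      rw [cr_of_sml _ hsm, cr_of_sml _ hsm']
      match l with
      | [] => simp [co_apply]
      | [x] =>
        show co (fn0 f) [g • x] = _ * co (fn0 f) [x]
        simp [co_apply, dl_cons, fn0]
      | [v, w] =>
        show co (fn0 f) [g • v, g • w] = _
        rw [QOc1_co, QOc1_co]
        show f (g • w) - f (g • v) = (χ g : k) * (f w - f v)
        rw [hf, hf]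
        ring
      | a :: b :: c :: l =>
        have h0 : ∀ l : List V, 3 ≤ l.length → co (fn0 f) l = 0 := by
          intro l hl
          refine dl_eq_zero l fun l' _ h2 => ?_
          by_contra h3
          have := fn0_len h3
          omega
        rw [h0 _ (by simp), h0 _ (by simp), mul_zero]
    · have hsm' : ¬ Sml sm (l.map (fun x => g • x)) := fun h => hsm ((sml_smul hF.smul_sm g l).1 h)
      have h1 : cr sm (fn0 f) l = 0 := by simp [cr, hsm]
      have h2 : cr sm (fn0 f) (l.map (fun x => g • x)) = 0 := by simp only [cr, hsm', if_false]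
      rw [h1, h2, mul_zero]
  obtain ⟨F, hF1, hF2⟩ := hfin
  refine ⟨⟨bl sm (bdO f cusp Set.univ) - cr sm (fn0 f), ⟨⟨?_, ?_, hrl⟩, ?_⟩, F, hF1,
    fun l hl => hF2 l (hrl l hl)⟩, ?_⟩
  · exact (WfH_bl_alt hF hβ).sub (fn0_alt f).cr
  · intro l hl
    obtain ⟨-, v, w, rfl⟩ := hlen2 l hl
    rfl
  · intro g l
    rw [Pi.sub_apply, Pi.sub_apply, WfH_bl_map hF hβ g l, hcrf]
    ring
  · show cr sm (bl sm (bdO f cusp Set.univ) - cr sm (fn0 f)) = _
    rw [cr_sub, cr_cr, sub_zero]

theorem cr_zero' : cr sm (0 : List V → k) = 0 := by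
  funext l
  unfold cr
  split_ifs
  · exact dl_zero l
  · rfl

theorem bl_zero' : bl sm (0 : V → V → k) = 0 := by
  funext l
  rcases l with _ | ⟨x, _ | ⟨y, _ | ⟨z, l⟩⟩⟩
  · simp [bl]
  · simp [bl]
  · simp [bl]
  · simp [bl]

theorem cr_bl_sum {I : Type*} (s : Finset I) (β : I → V → V → k) :
    cr sm (bl sm (∑ i ∈ s, β i)) = ∑ i ∈ s, cr sm (bl sm (β i)) := by
  classical
  induction s using Finset.induction_on with
  | empty => rw [Finset.sum_empty, Finset.sum_empty, bl_zero', cr_zero']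
  | insert a s ha ih =>
    rw [Finset.sum_insert ha, Finset.sum_insert ha, AlgK_bl_add, cr_add, ih]

/-- Decomposition into the orbits of the cusps. -/
theorem bdO_sum (f : V → k) {I : Type*} [Fintype I] (O : I → Set Ξ)
    (h1 : ∀ ζ, ∃ i, ζ ∈ O i) (h2 : ∀ ζ i j, ζ ∈ O i → ζ ∈ O j → i = j) :
    bdO f cusp Set.univ = ∑ i, bdO f cusp (O i) := by
  classical
  funext u v
  rw [Finset.sum_apply, Finset.sum_apply]
  by_cases h : ∃ ζ, cusp u = some ζ ∧ cusp v = some ζ
  · obtain ⟨ζ, hu, hv⟩ := h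
    obtain ⟨i, hi⟩ := h1 ζ
    rw [bdO_pos f (Set.mem_univ ζ) hu hv, Finset.sum_eq_single i]
    · rw [bdO_pos f hi hu hv]
    · intro j _ hj
      apply bdO_neg
      rintro ⟨ζ', h3, h4, -⟩
      rw [hu] at h4
      rw [← Option.some.inj h4] at h3
      exact hj (h2 ζ j i h3 hi)
    · intro h
      exact absurd (Finset.mem_univ i) h
  · rw [bdO_neg f (fun ⟨ζ, _, hu, hv⟩ => h ⟨ζ, hu, hv⟩)]
    symm
    refine Finset.sum_eq_zero fun i _ => ?_
    exact bdO_neg f (fun ⟨ζ, _, hu, hv⟩ => h ⟨ζ, hu, hv⟩)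

end Q62
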