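import Pool.Agent.W_04c03c_h62i.IK
import Pool.Agent.W_04c03c_h62q.QPa

/-!
# The restriction to the cusps is isotropic, from the orientation data
-/

namespace Q62

open RCan MulAction

section
variable {Γ Ξ V : Type} [Group Γ] [MulAction Γ Ξ] [MulAction Γ V] {sm : V → V → Prop}
  {cusp : V → Option Ξ} {ε : Γ →* ℤˣ} {z : List V → ℤ}

/-- The class is not a coboundary if there is a torus cusp. -/
theorem OrData.zF_ne (D : OrData Γ Ξ V sm cusp ε z) (F : Type) [Field F] {ξ : Ξ}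
    (h : IsTor Γ ξ) : ¬ ∃ e, crW D.face F 2 e = D.zF F := by
  obtain ⟨η, hη⟩ := D.two ξ
  have h1 := (z_torus D.face F hη (D.full ξ (isTor_virt h)) h
    (fun f hf h0 => D.h1 F f hf h0) D.zD (fun f hf h0 => D.zg F f hf h0)).1
  rintro ⟨e, he⟩
  exact h1 ⟨e.1, e.2, congrArg Subtype.val he⟩

/-- The restrictions to the cusps of crossed homomorphisms for `χ` and for `χ⁻¹ ω` are orthogonal for
a symplectic form on the homomorphisms of the cusps, which does not depend on `χ`. -/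
theorem iso_pair (D : OrData Γ Ξ V sm cusp ε z) (hT : TFree Γ)
    (hfin : ∃ F : Set V, F.Finite ∧ ∀ l, Rl sm cusp l → ∃ g : Γ, ∀ x ∈ l, g • x ∈ F)
    {I : Type} [Fintype I] (x : I → Ξ) (htor : ∀ i, IsTor Γ (x i))
    (hall : ∀ ζ, ∃ i, ζ ∈ orbit Γ (x i)) (hne : ∀ i j, i ≠ j → x i ∉ orbit Γ (x j))
    (F : Type) [Field F] (a b : ∀ i, stabilizer Γ (x i)) (hab : ∀ i, a i * b i = b i * a i)
    (hgen : ∀ i, Subgroup.closure {a i, b i} = ⊤)
    (hind : ∀ i, ∀ m n : ℤ, a i ^ m * b i ^ n = 1 → m = 0 ∧ n = 0) :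
    ∃ t : I → F, (∀ i, t i ≠ 0) ∧ ∀ χ : Γ →* Fˣ, (∀ i, ∀ g ∈ stabilizer Γ (x i), χ g = 1) →
      ∀ d ∈ XHom χ, ∀ d' ∈ XHom (χ⁻¹ * sgnF ε F),
        ∑ i, t i * (d (a i) * d' (b i) - d (b i) * d' (a i)) = 0 := by
  rcases isEmpty_or_nonempty I with hI | ⟨⟨i₀⟩⟩
  · exact ⟨fun _ => 1, fun _ => one_ne_zero, fun χ _ d _ d' _ => Fintype.sum_empty _⟩
  · exact iso_pairW D.face hT hfin x (fun i => D.full (x i) (isTor_virt (htor i)))
      (fun i => D.two (x i)) hall hne (fun f hf h0 => D.h1 F f hf h0) (D.zF F) (D.zF_cocycle F)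
      (D.zF_gen F) (D.zF_ne F (htor i₀)) (sgnF ε F) (sgnF_sq ε F) (D.zF_eig F)
      (fun i g hg => sgnF_one (D.eps_stab (x i) (htor i) g hg)) a b hab hgen hind

end

end Q62
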