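import Pool.Agent.W_04c03c_h62i.IH
import Pool.Agent.W_04c03c_h62i.IO

/-!
# Exact duality
-/

namespace Q62

open RCan MulAction

section
variable {Γ Ξ V : Type} [Group Γ] [MulAction Γ Ξ] [MulAction Γ V] {sm : V → V → Prop}
  {cusp : V → Option Ξ} {ε : Γ →* ℤˣ} {z : List V → ℤ}

/-- Exact duality: the ranks of the restrictions to the cusps of crossed homomorphisms for `χ` and for
`χ⁻¹ ω` add up to twice the number of cusps. -/
theorem exact_pair (D : OrData Γ Ξ V sm cusp ε z) (hT : TFree Γ)
    (hfin : ∃ F : Set V, F.Finite ∧ ∀ l, Rl sm cusp l → ∃ g : Γ, ∀ x ∈ l, g • x ∈ F)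
    {I : Type} [Fintype I] (x : I → Ξ) (htor : ∀ i, IsTor Γ (x i))
    (hall : ∀ ζ, ∃ i, ζ ∈ orbit Γ (x i)) (hne : ∀ i j, i ≠ j → x i ∉ orbit Γ (x j))
    (F : Type) [Field F] (χ : Γ →* Fˣ) (hχ : ∀ i, ∀ g ∈ stabilizer Γ (x i), χ g = 1) :
    resRank χ x + resRank (χ⁻¹ * sgnF ε F) x = 2 * Fintype.card I := by
  classical
  have hge := D.half F χ I x htor hne hχ
  rw [Nat.card_eq_fintype_card] at hge
  refine le_antisymm ?_ hge
  choose a b hab hgen' hind using fun i => exists_basis_of_Z2 (htor i)
  have hgen : ∀ i, Subgroup.closure {a i, b i} = ⊤ := by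
    intro i
    rw [eq_top_iff]
    intro g _
    obtain ⟨m, n, rfl⟩ := hgen' i g
    have hx : a i ∈ Subgroup.closure {a i, b i} := Subgroup.subset_closure (by simp)
    have hy : b i ∈ Subgroup.closure {a i, b i} := Subgroup.subset_closure (by simp)
    exact mul_mem (zpow_mem hx m) (zpow_mem hy n)
  obtain ⟨t, ht, key⟩ := iso_pair D hT hfin x htor hall hne F a b hab hgen hind
  have hω : ∀ i, ∀ g ∈ stabilizer Γ (x i), sgnF ε F g = 1 := fun i g hg =>
    sgnF_one (D.eps_stab (x i) (htor i) g hg)
  have hχ' : ∀ i, ∀ g ∈ stabilizer Γ (x i), (χ⁻¹ * sgnF ε F) g = 1 := by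
    intro i g hg
    rw [MonoidHom.mul_apply, MonoidHom.inv_apply, hχ i g hg, hω i g hg, inv_one, one_mul]
  rw [← resRank_eq χ x hχ, ← resRank_eq (χ⁻¹ * sgnF ε F) x hχ']
  obtain ⟨hfd, hrk⟩ := Hs_Z2 (Γ := Γ) F x htor
  have hfd' : FiniteDimensional F (∀ i, Additive (stabilizer Γ (x i)) →+ F) := hfd
  have hrk' : Module.finrank F (∀ i, Additive (stabilizer Γ (x i)) →+ F) = 2 * Nat.card I := hrk
  rw [Nat.card_eq_fintype_card] at hrk'
  rw [← hrk']
  let S : (∀ i, Additive (stabilizer Γ (x i)) →+ F) →ₗ[F]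
      (∀ i, Additive (stabilizer Γ (x i)) →+ F) →ₗ[F] F :=
    LinearMap.mk₂ F (fun u v => ∑ i, t i * (u i (Additive.ofMul (a i)) * v i (Additive.ofMul (b i)) -
        u i (Additive.ofMul (b i)) * v i (Additive.ofMul (a i))))
      (fun u u' v => by
        rw [← Finset.sum_add_distrib]
        refine Finset.sum_congr rfl fun i _ => ?_
        rw [Pi.add_apply, AddMonoidHom.add_apply, AddMonoidHom.add_apply]
        ring)
      (fun c u v => by
        rw [smul_eq_mul, Finset.mul_sum]
        refine Finset.sum_congr rfl fun i _ => ?_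
        show t i * ((c * u i (Additive.ofMul (a i))) * v i (Additive.ofMul (b i)) -
          (c * u i (Additive.ofMul (b i))) * v i (Additive.ofMul (a i))) = _
        ring)
      (fun u v v' => by
        rw [← Finset.sum_add_distrib]
        refine Finset.sum_congr rfl fun i _ => ?_
        rw [Pi.add_apply, AddMonoidHom.add_apply, AddMonoidHom.add_apply]
        ring)
      (fun c u v => by
        rw [smul_eq_mul, Finset.mul_sum]
        refine Finset.sum_congr rfl fun i _ => ?_
        show t i * (u i (Additive.ofMul (a i)) * (c * v i (Additive.ofMul (b i))) -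
          u i (Additive.ofMul (b i)) * (c * v i (Additive.ofMul (a i)))) = _
        ring)
  have hS : ∀ u v, S u v = ∑ i, t i * (u i (Additive.ofMul (a i)) * v i (Additive.ofMul (b i)) -
        u i (Additive.ofMul (b i)) * v i (Additive.ofMul (a i))) := fun u v => rfl
  refine finrank_add_le_of_orth (resX χ x hχ) (resX (χ⁻¹ * sgnF ε F) x hχ') S ?_ ?_
  · intro w hw
    funext i
    -- the dual basis of the homomorphisms of the cusp
    obtain ⟨e⟩ := htor i
    have hsingle : ∀ (u : Additive (stabilizer Γ (x i)) →+ F), S (Pi.single i u) w =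
        t i * (u (Additive.ofMul (a i)) * w i (Additive.ofMul (b i)) -
        u (Additive.ofMul (b i)) * w i (Additive.ofMul (a i))) := by
      intro u
      rw [hS, Finset.sum_eq_single i]
      · rw [Pi.single_eq_same]
      · intro j _ hj
        rw [Pi.single_eq_of_ne hj, AddMonoidHom.zero_apply, AddMonoidHom.zero_apply]
        ring
      · intro h
        exact absurd (Finset.mem_univ i) h
    have hmulzpow : ∀ m n m' n' : ℤ, (a i) ^ m * (b i) ^ n * ((a i) ^ m' * (b i) ^ n') =
        (a i) ^ (m + m') * (b i) ^ (n + n') := by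
      intro m n m' n'
      have hc : Commute (a i) (b i) := hab i
      have h1 : (b i) ^ n * (a i) ^ m' = (a i) ^ m' * (b i) ^ n := ((hc.zpow_zpow m' n).eq).symm
      rw [zpow_add, zpow_add]
      calc (a i) ^ m * (b i) ^ n * ((a i) ^ m' * (b i) ^ n')
          = (a i) ^ m * ((b i) ^ n * (a i) ^ m') * (b i) ^ n' := by group
        _ = (a i) ^ m * ((a i) ^ m' * (b i) ^ n) * (b i) ^ n' := by rw [h1]
        _ = _ := by group
    choose p q hpq using hgen' i
    have huniq : ∀ m n m' n' : ℤ, (a i) ^ m * (b i) ^ n = (a i) ^ m' * (b i) ^ n' →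
        m = m' ∧ n = n' := by
      intro m n m' n' h
      have h1 := hmulzpow m n (-m') (-n')
      have h2 := hmulzpow m' n' (-m') (-n')
      rw [h, h2, add_neg_cancel, add_neg_cancel, zpow_zero, zpow_zero, one_mul] at h1
      have h3 := hind i _ _ h1.symm
      constructor
      · omega
      · omega
    have hp : ∀ g h, p (g * h) = p g + p h ∧ q (g * h) = q g + q h := by
      intro g h
      refine huniq _ _ _ _ ?_
      rw [← hpq, ← hmulzpow, ← hpq, ← hpq]
    let up : Additive (stabilizer Γ (x i)) →+ F := AddMonoidHom.mk' (fun g => ((p g.toMul : ℤ) : F))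
      (fun g h => by
        rw [toMul_add, (hp _ _).1]
        push_cast
        rfl)
    let uq : Additive (stabilizer Γ (x i)) →+ F := AddMonoidHom.mk' (fun g => ((q g.toMul : ℤ) : F))
      (fun g h => by
        rw [toMul_add, (hp _ _).2]
        push_cast
        rfl)
    have hpa : p (a i) = 1 ∧ q (a i) = 0 := huniq _ _ _ _ (by
      rw [← hpq, zpow_one, zpow_zero, mul_one])
    have hpb : p (b i) = 0 ∧ q (b i) = 1 := huniq _ _ _ _ (by
      rw [← hpq, zpow_one, zpow_zero, one_mul])
    have hup1 : up (Additive.ofMul (a i)) = 1 := by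
      show ((p (a i) : ℤ) : F) = 1
      rw [hpa.1, Int.cast_one]
    have hup2 : up (Additive.ofMul (b i)) = 0 := by
      show ((p (b i) : ℤ) : F) = 0
      rw [hpb.1, Int.cast_zero]
    have huq1 : uq (Additive.ofMul (a i)) = 0 := by
      show ((q (a i) : ℤ) : F) = 0
      rw [hpa.2, Int.cast_zero]
    have huq2 : uq (Additive.ofMul (b i)) = 1 := by
      show ((q (b i) : ℤ) : F) = 1
      rw [hpb.2, Int.cast_one]
    have h1 := hw (Pi.single i up)
    have h2 := hw (Pi.single i uq)
    rw [hsingle, hup1, hup2, one_mul, zero_mul, sub_zero] at h1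
    rw [hsingle, huq1, huq2, one_mul, zero_mul, zero_sub, mul_neg, neg_eq_zero] at h2
    exact hom_ext_basis (hgen i) (w i) ((mul_eq_zero.1 h2).resolve_left (ht i))
      ((mul_eq_zero.1 h1).resolve_left (ht i))
  · intro d d'
    rw [hS]
    exact key χ hχ d.1 d.2 d'.1 d'.2

end

end Q62
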