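import Pool.Agent.W_04c03c_h62i.IF
import Pool.Agent.W_04c03c_h62s.SDefs

/-!
# The dimension of the cohomology in degree two
-/

namespace Q62

open RCan MulAction

section
variable {Γ Ξ V : Type} [Group Γ] [MulAction Γ Ξ] [MulAction Γ V] {sm : V → V → Prop}
  {cusp : V → Option Ξ} {k : Type} [Field k]

theorem Prin_le_XHom (χ : Γ →* kˣ) : Prin χ ≤ XHom χ := by
  rintro d ⟨m, hm⟩ g h
  rw [hm, hm, hm, map_mul, Units.val_mul]
  ring

theorem finrank_quot {W : Type} [AddCommGroup W] [Module k W] (P X : Submodule k W) (h : P ≤ X)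
    [FiniteDimensional k X] :
    Module.finrank k (X.map P.mkQ) + Module.finrank k P = Module.finrank k X := by
  have h1 := LinearMap.finrank_range_add_finrank_ker (P.mkQ ∘ₗ X.subtype)
  have h2 : LinearMap.range (P.mkQ ∘ₗ X.subtype) = X.map P.mkQ := by
    rw [LinearMap.range_comp, Submodule.range_subtype]
  have h3 : LinearMap.ker (P.mkQ ∘ₗ X.subtype) = P.comap X.subtype := by
    rw [LinearMap.ker_comp, Submodule.ker_mkQ]
  rw [h2, h3, (Submodule.comapSubtypeEquivOfLe h).finrank_eq] at h1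
  exact h1

theorem count_aux {U W : Type} [AddCommGroup U] [Module k U] [AddCommGroup W] [Module k W]
    (A H' : Submodule k U) (X P : Submodule k W) (hPX : P ≤ X) [FiniteDimensional k A]
    [FiniteDimensional k X] (D : U →ₗ[k] W) (hH : H' ≤ A) (hX : ∀ φ ∈ A, D φ ∈ X)
    (hP : ∀ φ ∈ A, (D φ ∈ P ↔ φ ∈ H')) (hs : ∀ d ∈ X, ∃ φ ∈ A, D φ - d ∈ P) :
    Module.finrank k A + Module.finrank k P = Module.finrank k X + Module.finrank k H' := by
  let D' : A →ₗ[k] W ⧸ P := P.mkQ ∘ₗ D ∘ₗ A.subtype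
  have hrange : LinearMap.range D' = X.map P.mkQ := by
    apply le_antisymm
    · rintro _ ⟨φ, rfl⟩
      exact ⟨_, hX φ.1 φ.2, rfl⟩
    · rintro _ ⟨d, hd, rfl⟩
      obtain ⟨φ, hφ, h1⟩ := hs d hd
      refine ⟨⟨φ, hφ⟩, ?_⟩
      show P.mkQ (D φ) = P.mkQ d
      rw [← sub_eq_zero, ← map_sub, Submodule.mkQ_apply, Submodule.Quotient.mk_eq_zero]
      exact h1
  have hker : LinearMap.ker D' = H'.comap A.subtype := by
    ext φ
    rw [LinearMap.mem_ker, Submodule.mem_comap]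
    show P.mkQ (D φ.1) = 0 ↔ φ.1 ∈ H'
    rw [Submodule.mkQ_apply, Submodule.Quotient.mk_eq_zero]
    exact hP φ.1 φ.2
  have hrn := LinearMap.finrank_range_add_finrank_ker D'
  rw [hrange, hker, (Submodule.comapSubtypeEquivOfLe hH).finrank_eq] at hrn
  have hq := finrank_quot P X hPX
  omega

/-- The functional of a functional is a crossed homomorphism, linearly. -/
noncomputable def dlt (hF : WFace Γ Ξ V sm cusp) (χ ω : Γ →* kˣ) (e : Γ → DSub sm cusp k 2) :
    Module.Dual k (EQf sm cusp χ 2) →ₗ[k] (Γ → k) where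
  toFun φ g := (ω g : k) * φ (avF hF χ 2 (e g))
  map_add' φ ψ := by
    funext g
    simp [mul_add]
  map_smul' c φ := by
    funext g
    simp [mul_left_comm]

theorem dlt_apply (hF : WFace Γ Ξ V sm cusp) (χ ω : Γ →* kˣ) (e : Γ → DSub sm cusp k 2)
    (φ : Module.Dual k (EQf sm cusp χ 2)) (g : Γ) :
    dlt hF χ ω e φ g = (ω g : k) * φ (avF hF χ 2 (e g)) := rfl

theorem dlt_prin (χ ω : Γ →* kˣ) (hω2 : ∀ g, ω g * ω g = 1) (u : Γ → k) :
    (fun g => (ω g : k) * u g) ∈ Prin (χ⁻¹ * ω) ↔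
      ∃ a : k, ∀ g, u g = ((((χ g)⁻¹ : kˣ) : k) - (ω g : k)) * a := by
  have h2 : ∀ g, ((ω g : kˣ) : k) * (ω g : k) = 1 := by
    intro g
    rw [← Units.val_mul, hω2, Units.val_one]
  have h3 : ∀ g, (((χ⁻¹ * ω) g : kˣ) : k) = (((χ g)⁻¹ : kˣ) : k) * (ω g : k) := by
    intro g
    rw [MonoidHom.mul_apply, MonoidHom.inv_apply, Units.val_mul]
  constructor
  · rintro ⟨m, hm⟩
    refine ⟨m, fun g => ?_⟩
    have h4 : (ω g : k) * u g = ((((χ⁻¹ * ω) g : kˣ) : k) - 1) * m := hm g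
    rw [h3] at h4
    have h5 : u g = (ω g : k) * ((ω g : k) * u g) := by
      rw [← mul_assoc, h2, one_mul]
    rw [h5, h4]
    linear_combination ((((χ g)⁻¹ : kˣ) : k) * m) * h2 g
  · rintro ⟨a, ha⟩
    refine ⟨a, fun g => ?_⟩
    show (ω g : k) * u g = _
    rw [h3, ha]
    linear_combination (-a) * h2 g

/-- Duality in dimensions. -/
theorem dual_count (hF : WFace Γ Ξ V sm cusp) (hT : TFree Γ) (χ ω : Γ →* kˣ)
    (hω2 : ∀ g, ω g * ω g = 1) (z : DSub sm cusp k 3) (hz : crW hF k 3 z = 0)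
    (hz' : ∀ f : DSub sm cusp k 3, crW hF k 3 f = 0 → ∃ (c : k) (e : DSub sm cusp k 2),
      f = c • z + crW hF k 2 e) (hnz : ¬ ∃ e, crW hF k 2 e = z)
    (he : ∀ g, ∃ e : DSub sm cusp k 2, crW hF k 2 e = trW hF k 3 g z - (ω g : k) • z)
    (hfd : FiniteDimensional k (EQf sm cusp χ 2)) (hfx : FiniteDimensional k (XHom (χ⁻¹ * ω))) :
    Module.finrank k (LinearMap.ker (crF (sm := sm) (cusp := cusp) (k := k) hF χ 2)) +
        Module.finrank k (Prin (χ⁻¹ * ω)) =
      Module.finrank k (LinearMap.range (crF (sm := sm) (cusp := cusp) (k := k) hF χ 1)) +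
        Module.finrank k (XHom (χ⁻¹ * ω)) := by
  classical
  choose e he using he
  obtain ⟨B, hB⟩ : ∃ B : Submodule k (EQf sm cusp χ 2), B = LinearMap.range (crF hF χ 1) :=
    ⟨_, rfl⟩
  obtain ⟨H, hH⟩ : ∃ H : Submodule k (EQf sm cusp χ 2), H = LinearMap.ker (crF hF χ 2) :=
    ⟨_, rfl⟩
  rw [← hB, ← hH]
  have hBH : B ≤ H := by
    rw [hB, hH]
    rintro _ ⟨c, rfl⟩
    exact Subtype.ext (cr_cr c.1)
  have hA : ∀ φ : Module.Dual k (EQf sm cusp χ 2), φ ∈ B.dualAnnihilator ↔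
      ∀ c : EQf sm cusp χ 1, φ (crF hF χ 1 c) = 0 := by
    intro φ
    rw [Submodule.mem_dualAnnihilator, hB]
    constructor
    · intro h c
      exact h _ ⟨c, rfl⟩
    · rintro h _ ⟨c, rfl⟩
      exact h c
  have h2 : ∀ g, ((ω g : kˣ) : k) * (ω g : k) = 1 := by
    intro g
    rw [← Units.val_mul, hω2, Units.val_one]
  have hX : ∀ φ ∈ B.dualAnnihilator, dlt hF χ ω e φ ∈ XHom (χ⁻¹ * ω) := by
    intro φ hφ g h
    rw [hA] at hφ
    rw [dlt_apply, dlt_apply, dlt_apply, dual_crossedW hF χ ω z φ hφ e he g h, map_mul,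
      Units.val_mul, MonoidHom.mul_apply, MonoidHom.inv_apply, Units.val_mul]
    linear_combination (ω g : k) * φ (avF hF χ 2 (e g)) * h2 h
  have hP : ∀ φ ∈ B.dualAnnihilator, (dlt hF χ ω e φ ∈ Prin (χ⁻¹ * ω) ↔
      φ ∈ H.dualAnnihilator) := by
    intro φ hφ
    rw [hA] at hφ
    have h3 := dlt_prin χ ω hω2 (fun g => φ (avF hF χ 2 (e g)))
    refine h3.trans ?_
    constructor
    · rintro ⟨a, ha⟩
      rw [Submodule.mem_dualAnnihilator]
      intro c hc
      rw [hH] at hc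
      exact dual_principalW hF hT χ ω z hz hz' e he φ hφ a ha c hc
    · intro hφH
      have h4 : φ ∈ LinearMap.range (crF (sm := sm) (cusp := cusp) (k := k) hF χ 2).dualMap := by
        rw [LinearMap.range_dualMap_eq_dualAnnihilator_ker, ← hH]
        exact hφH
      obtain ⟨ψ, hψ⟩ := h4
      refine ⟨ψ (avF hF χ 3 z), fun g => ?_⟩
      rw [← hψ, LinearMap.dualMap_apply, crF_avF, he, map_sub, map_sub, map_smul, map_smul,
        avF_trW, Units.smul_def, map_smul, smul_eq_mul, smul_eq_mul]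
      ring
  have hs : ∀ d ∈ XHom (χ⁻¹ * ω), ∃ φ ∈ B.dualAnnihilator, dlt hF χ ω e φ - d ∈ Prin (χ⁻¹ * ω) := by
    intro d hd
    have hd1 : ∀ g h, d (g * h) = d g + (((χ⁻¹ * ω) g : kˣ) : k) * d h := hd
    obtain ⟨φ, a, h5, h6⟩ := delta_surj hF hT χ ω z hz hz' hnz e he (fun g => (ω g : k) * d g) (by
      intro g h
      rw [hd1, MonoidHom.mul_apply, MonoidHom.inv_apply, Units.val_mul, map_mul, Units.val_mul]
      linear_combination ((((χ g)⁻¹ : kˣ) : k) * (ω h : k) * d h) * h2 g)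
    refine ⟨φ, (hA φ).2 h5, ?_⟩
    have h7 : dlt hF χ ω e φ - d =
        fun g => (ω g : k) * (((((χ g)⁻¹ : kˣ) : k) - (ω g : k)) * a) := by
      funext g
      rw [Pi.sub_apply, dlt_apply, h6]
      linear_combination (d g) * h2 g
    rw [h7, dlt_prin χ ω hω2]
    exact ⟨a, fun g => rfl⟩
  have hmain := count_aux B.dualAnnihilator H.dualAnnihilator (XHom (χ⁻¹ * ω)) (Prin (χ⁻¹ * ω))
    (Prin_le_XHom _) (dlt hF χ ω e) (Submodule.dualAnnihilator_anti hBH) hX hP hs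
  have h8 := Subspace.finrank_add_finrank_dualAnnihilator_eq B
  have h9 := Subspace.finrank_add_finrank_dualAnnihilator_eq H
  have key : ∀ a b c d p x n : ℕ, c + p = x + d → a + c = n → b + d = n →
      b + p = a + x := by
    intro a b c d p x n h1 h2 h3
    omega
  exact key _ _ _ _ _ _ _ hmain h8 h9

end

end Q62
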