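import Pool.Agent.W_04c03c_h62i.IE
import Pool.Agent.W_04c03c_h62i.IF
import Pool.Agent.W_04c03c_h62i.IG
import Pool.Agent.W_04c03c_h62s.SRes

/-!
# The restriction to the cusps is isotropic
-/

namespace Q62

open RCan MulAction

section
variable {Γ Ξ V : Type} [Group Γ] [MulAction Γ Ξ] [MulAction Γ V] {sm : V → V → Prop}
  {cusp : V → Option Ξ} {k : Type} [Field k]

/-- The restrictions to the cusps of crossed homomorphisms for `χ` and for `χ⁻¹ ω` are orthogonal for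
a symplectic form on the homomorphisms of the cusps, which does not depend on `χ`. -/
theorem iso_pairW (hF : WFace Γ Ξ V sm cusp) (hT : TFree Γ)
    (hfin : ∃ F : Set V, F.Finite ∧ ∀ l, Rl sm cusp l → ∃ g : Γ, ∀ x ∈ l, g • x ∈ F)
    {I : Type} [Fintype I] (x : I → Ξ) (hfull : ∀ i, WFull Γ sm cusp (x i))
    (hη : ∀ i, ∃ η, η ≠ x i)
    (hall : ∀ ζ, ∃ i, ζ ∈ orbit Γ (x i)) (hne : ∀ i j, i ≠ j → x i ∉ orbit Γ (x j))
    (h1 : ∀ f : List V → k, IsD sm cusp k 1 f → cr sm f = 0 →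
      ∃ e, IsD sm cusp k 0 e ∧ cr sm e = f)
    (z : DSub sm cusp k 3) (hz : crW hF k 3 z = 0)
    (hz' : ∀ f : DSub sm cusp k 3, crW hF k 3 f = 0 → ∃ (c : k) (e : DSub sm cusp k 2),
      f = c • z + crW hF k 2 e) (hnz : ¬ ∃ e, crW hF k 2 e = z)
    (ω : Γ →* kˣ) (hω2 : ∀ g, ω g * ω g = 1)
    (he : ∀ g, ∃ e : DSub sm cusp k 2, crW hF k 2 e = trW hF k 3 g z - (ω g : k) • z)
    (hω : ∀ i, ∀ g ∈ stabilizer Γ (x i), ω g = 1)
    (a b : ∀ i, stabilizer Γ (x i)) (hab : ∀ i, a i * b i = b i * a i)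
    (hgen : ∀ i, Subgroup.closure {a i, b i} = ⊤)
    (hind : ∀ i, ∀ m n : ℤ, a i ^ m * b i ^ n = 1 → m = 0 ∧ n = 0) :
    ∃ t : I → k, (∀ i, t i ≠ 0) ∧ ∀ χ : Γ →* kˣ, (∀ i, ∀ g ∈ stabilizer Γ (x i), χ g = 1) →
      ∀ d ∈ XHom χ, ∀ d' ∈ XHom (χ⁻¹ * ω),
        ∑ i, t i * (d (a i) * d' (b i) - d (b i) * d' (a i)) = 0 := by
  classical
  choose η hη using hη
  have hTs : ∀ i, TFree (stabilizer Γ (x i)) := fun i => WfS3_tfree hT _
  have hloc := fun i => iso_cusp hF (hη i) (hTs i) (hfull i) (hab i) (hgen i) (hind i) h1 z hz'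
  choose t ht key using hloc
  refine ⟨t, ht, ?_⟩
  intro χ hχ d hd d' hd'
  choose e he using he
  have hd1 : ∀ g h, d (g * h) = d g + (χ g : k) * d h := hd
  have hd1' : ∀ g h, d' (g * h) = d' g + (((χ⁻¹ * ω) g : kˣ) : k) * d' h := hd'
  obtain ⟨φ, a₀, hφ, hφe⟩ := delta_surj hF hT χ ω z hz hz' hnz e he
    (fun g => (ω g : k) * d' g) (by
      intro g h
      have h2 : ((ω g : kˣ) : k) * (ω g : k) = 1 := by
        rw [← Units.val_mul, hω2, Units.val_one]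
      have h3 : (((χ⁻¹ * ω) g : kˣ) : k) = (((χ g)⁻¹ : kˣ) : k) * (ω g : k) := by
        rw [MonoidHom.mul_apply, MonoidHom.inv_apply, Units.val_mul]
      rw [map_mul, Units.val_mul, hd1' g h, h3]
      linear_combination ((((χ g)⁻¹ : kˣ) : k) * (ω h : k) * d' h) * h2)
  have hval : ∀ i, ∀ g : stabilizer Γ (x i), φ (avF hF χ 2 (e g)) = d' g := by
    intro i g
    rw [hφe, hω i g g.2, hχ i g g.2]
    simp
  obtain ⟨f, hf⟩ := exists_potential hF χ d hd1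
  obtain ⟨e1, he1⟩ := exists_e1 hF hfin hf
  have hO : ∀ i, ∀ g : Γ, ∀ ζ ∈ orbit Γ (x i), g • ζ ∈ orbit Γ (x i) := by
    rintro i g ζ ⟨g', rfl⟩
    exact ⟨g * g', mul_smul g g' (x i)⟩
  have hβ : ∀ i, IsBd cusp χ (bdO f cusp (orbit Γ (x i))) := fun i => bdO_isBd hF hf (hO i)
  have hs : ∀ i, ∀ u v, bdO f cusp (orbit Γ (x i)) u v ≠ 0 → ∃ g : Γ, cusp u = some (g • x i) := by
    intro i u v huv
    by_contra h
    apply huv
    apply bdO_neg
    rintro ⟨ζ, ⟨g, rfl⟩, h1, -⟩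
    exact h ⟨g, h1⟩
  have hmem : ∀ i, cr sm (bl sm (bdO f cusp (orbit Γ (x i)))) ∈ EQf sm cusp χ 2 := fun i =>
    cr_bl_memF hF (ι := Unit) (fun _ => x i) (fun _ => hfull i) (hβ i) (fun u v huv => by
      obtain ⟨g, hg⟩ := hs i u v huv
      exact ⟨(), g, hg⟩)
  have hsum : ∑ i, (⟨_, hmem i⟩ : EQf sm cusp χ 2) = crF hF χ 1 e1 := by
    apply Subtype.ext
    rw [crF_coe, he1, bdO_sum f (fun i => orbit Γ (x i)) hall (fun ζ i j hi hj => by
      by_contra hij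
      refine hne i j hij ?_
      have h1 := MulAction.orbit_eq_iff.2 hi
      have h2 := MulAction.orbit_eq_iff.2 hj
      rw [← h2, h1]
      exact MulAction.mem_orbit_self _), cr_bl_sum]
    rw [← Submodule.subtype_apply, map_sum]
    rfl
  have hterm : ∀ i, t i * (d (a i) * d' (b i) - d (b i) * d' (a i)) =
      φ (⟨_, hmem i⟩ : EQf sm cusp χ 2) := by
    intro i
    have h1 := key i χ ω (hχ i) (hω i) e he φ hφ (bdO f cusp (orbit Γ (x i))) (hβ i)
      (hs i) (resX χ x hχ ⟨d, hd⟩ i) (by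
        intro v hv g
        have hgv : cusp ((g : Γ) • v) = some (x i) := by
          rw [hF.cusp_smul, hv, Option.map_some]
          exact congrArg some g.2
        rw [bdO_pos f (MulAction.mem_orbit_self (x i)) hv hgv, hf, hχ i g g.2, Units.val_one,
          one_mul, add_sub_cancel_right]
        rfl) ⟨_, hmem i⟩ rfl
    rw [h1, hval, hval]
    rfl
  rw [Finset.sum_congr rfl fun i _ => hterm i, ← map_sum, hsum, hφ]

end

end Q62
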