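import Pool.Agent.W_04c03c_h58t.UDef

/-!
# The relation module of a partial Dehn filling
-/

namespace Thu

section

variable {K G Q E ι κ : Type} [Field K] [Group G] [Group Q] [AddCommGroup E] [Module K E]

/-- the generators which are not killed -/
abbrev IQ (a : κ → ι) (J : Set κ) : Type := {l : ι // ∀ j ∈ J, a j ≠ l}

/-- the cusps which are not filled -/
abbrev KQ (J : Set κ) : Type := {i : κ // i ∉ J}

/-- the generators of the filling -/
def xQ (π : G →* Q) (x : ι → G) (a : κ → ι) (J : Set κ) : IQ a J → Q := fun l => π (x l.1)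

/-- the first basis elements of the cusps which are not filled -/
def aQ {a b : κ → ι} (hinj : Function.Injective (Sum.elim a b)) (J : Set κ) : KQ J → IQ a J :=
  fun i => ⟨a i.1, fun j hj h => i.2 (by
    have h1 : (Sum.inl j : κ ⊕ κ) = Sum.inl i.1 := hinj h
    rw [← Sum.inl.inj h1]
    exact hj)⟩

/-- the second basis elements of the cusps which are not filled -/
def bQ {a b : κ → ι} (hinj : Function.Injective (Sum.elim a b)) (J : Set κ) : KQ J → IQ a J :=
  fun i => ⟨b i.1, fun j _ h => by
    have h1 : (Sum.inl j : κ ⊕ κ) = Sum.inr i.1 := hinj h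
    exact Sum.inl_ne_inr h1⟩

theorem abQ_inj {a b : κ → ι} (hinj : Function.Injective (Sum.elim a b)) (J : Set κ) :
    Function.Injective (Sum.elim (aQ hinj J) (bQ hinj J)) := by
  rintro (i | i) (j | j) h
  · have h1 : (Sum.inl i.1 : κ ⊕ κ) = Sum.inl j.1 := hinj (congrArg Subtype.val h)
    rw [Subtype.ext (Sum.inl.inj h1)]
  · have h1 : (Sum.inl i.1 : κ ⊕ κ) = Sum.inr j.1 := hinj (congrArg Subtype.val h)
    exact absurd h1 Sum.inl_ne_inr
  · have h1 : (Sum.inr i.1 : κ ⊕ κ) = Sum.inl j.1 := hinj (congrArg Subtype.val h)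
    exact absurd h1.symm Sum.inl_ne_inr
  · have h1 : (Sum.inr i.1 : κ ⊕ κ) = Sum.inr j.1 := hinj (congrArg Subtype.val h)
    rw [Subtype.ext (Sum.inr.inj h1)]

open Classical in
/-- the projection of the free groups -/
noncomputable def pQ (a : κ → ι) (J : Set κ) : FreeGroup ι →* FreeGroup (IQ a J) :=
  FreeGroup.lift fun l => if h : ∀ j ∈ J, a j ≠ l then FreeGroup.of ⟨l, h⟩ else 1

theorem pQ_of {a : κ → ι} {J : Set κ} (l : IQ a J) : pQ a J (FreeGroup.of l.1) = FreeGroup.of l := by
  unfold pQ
  rw [FreeGroup.lift_apply_of, dif_pos l.2]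

theorem pQ_kill {a : κ → ι} {J : Set κ} {j : κ} (hj : j ∈ J) :
    pQ a J (FreeGroup.of (a j)) = 1 := by
  unfold pQ
  rw [FreeGroup.lift_apply_of, dif_neg]
  intro h
  exact h j hj rfl

theorem lift_pQ (π : G →* Q) (x : ι → G) (a : κ → ι) (J : Set κ)
    (hJ : ∀ j ∈ J, π (x (a j)) = 1) (f : FreeGroup ι) :
    FreeGroup.lift (xQ π x a J) (pQ a J f) = π (FreeGroup.lift x f) := by
  have h1 : (FreeGroup.lift (xQ π x a J)).comp (pQ a J) = π.comp (FreeGroup.lift x) := by
    apply FreeGroup.ext_hom
    intro l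
    rw [MonoidHom.comp_apply, MonoidHom.comp_apply, FreeGroup.lift_apply_of]
    by_cases h : ∀ j ∈ J, a j ≠ l
    · have h2 := pQ_of (a := a) (J := J) ⟨l, h⟩
      change pQ a J (FreeGroup.of l) = _ at h2
      rw [h2, FreeGroup.lift_apply_of]
      rfl
    · push Not at h
      obtain ⟨j, hj, rfl⟩ := h
      rw [pQ_kill hj, map_one, hJ j hj]
  exact DFunLike.congr_fun h1 f

theorem closure_xQ {π : G →* Q} (hπ : Function.Surjective π) {x : ι → G}
    (hx : Subgroup.closure (Set.range x) = ⊤) (a : κ → ι) {J : Set κ}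
    (hJ : ∀ j ∈ J, π (x (a j)) = 1) : Subgroup.closure (Set.range (xQ π x a J)) = ⊤ := by
  rw [eq_top_iff]
  rintro q -
  obtain ⟨g, rfl⟩ := hπ q
  have hg : g ∈ Subgroup.closure (Set.range x) := by
    rw [hx]
    exact Subgroup.mem_top g
  induction hg using Subgroup.closure_induction with
  | mem g hg =>
    obtain ⟨l, rfl⟩ := hg
    by_cases h : ∀ j ∈ J, a j ≠ l
    · exact Subgroup.subset_closure ⟨⟨l, h⟩, rfl⟩
    · push Not at h
      obtain ⟨j, hj, rfl⟩ := h
      rw [hJ j hj]
      exact Subgroup.one_mem _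
  | one =>
    rw [map_one]
    exact Subgroup.one_mem _
  | mul g h _ _ hg hh =>
    rw [map_mul]
    exact mul_mem hg hh
  | inv g _ hg =>
    rw [map_inv]
    exact inv_mem hg

/-- The relation subgroup of the filling is the image of the relation subgroup. -/
theorem pQ_surj {π : G →* Q} {x : ι → G} (hx : Subgroup.closure (Set.range x) = ⊤) (a : κ → ι)
    {J : Set κ} (hker : π.ker = Subgroup.normalClosure ((fun j => x (a j)) '' J))
    (r' : (FreeGroup.lift (xQ π x a J)).ker) :
    ∃ r : (FreeGroup.lift x).ker, pQ a J r = r' := by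
  have hJ : ∀ j ∈ J, π (x (a j)) = 1 := by
    intro j hj
    have h1 : x (a j) ∈ π.ker := by
      rw [hker]
      exact Subgroup.subset_normalClosure ⟨j, hj, rfl⟩
    exact h1
  have hsurj : Function.Surjective (FreeGroup.lift x) := by
    rw [← MonoidHom.range_eq_top, eq_top_iff, ← hx, Subgroup.closure_le]
    rintro _ ⟨l, rfl⟩
    exact ⟨FreeGroup.of l, FreeGroup.lift_apply_of⟩
  -- a section
  let s : FreeGroup (IQ a J) →* FreeGroup ι := FreeGroup.lift fun l => FreeGroup.of l.1
  have hs : ∀ f, pQ a J (s f) = f := by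
    intro f
    have h1 : (pQ a J).comp s = MonoidHom.id _ := by
      apply FreeGroup.ext_hom
      intro l
      rw [MonoidHom.comp_apply, MonoidHom.id_apply]
      have h2 : s (FreeGroup.of l) = FreeGroup.of l.1 := FreeGroup.lift_apply_of
      rw [h2, pQ_of]
    exact DFunLike.congr_fun h1 f
  have h2 : FreeGroup.lift x (s r') ∈ π.ker := by
    rw [MonoidHom.mem_ker, ← lift_pQ π x a J hJ, hs]
    exact r'.2
  rw [hker] at h2
  have h3 : Subgroup.normalClosure ((fun j => x (a j)) '' J) ≤
      (Subgroup.normalClosure ((fun j => FreeGroup.of (a j)) '' J)).map (FreeGroup.lift x) := by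
    have hn : ((Subgroup.normalClosure ((fun j => FreeGroup.of (a j)) '' J)).map
        (FreeGroup.lift x)).Normal :=
      Subgroup.Normal.map Subgroup.normalClosure_normal _ hsurj
    refine Subgroup.normalClosure_le_normal ?_
    rintro _ ⟨j, hj, rfl⟩
    exact ⟨FreeGroup.of (a j), Subgroup.subset_normalClosure ⟨j, hj, rfl⟩, FreeGroup.lift_apply_of⟩
  obtain ⟨c, hc, hc'⟩ := h3 h2
  have h4 : Subgroup.normalClosure ((fun j => FreeGroup.of (a j)) '' J) ≤ (pQ a J).ker := by
    refine Subgroup.normalClosure_le_normal ?_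
    rintro _ ⟨j, hj, rfl⟩
    exact pQ_kill hj
  have h5 : pQ a J c = 1 := h4 hc
  refine ⟨⟨c⁻¹ * s r', ?_⟩, ?_⟩
  · rw [MonoidHom.mem_ker, map_mul, map_inv, hc', inv_mul_cancel]
  · show pQ a J (c⁻¹ * s r') = r'
    rw [map_mul, map_inv, h5, inv_one, one_mul, hs]

/-- The equivariant homomorphisms on the relation module of the filling are equivariant homomorphisms
on the relation module of the group. -/
theorem th_quot {π : G →* Q} {x : ι → G} (hx : Subgroup.closure (Set.range x) = ⊤) {a b : κ → ι}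
    (hinj : Function.Injective (Sum.elim a b)) {J : Set κ}
    (hker : π.ker = Subgroup.normalClosure ((fun j => x (a j)) '' J))
    (σ : Representation K Q E) [FiniteDimensional K (Th (σ.comp π : Representation K G E) x a b)] :
    FiniteDimensional K (Th σ (xQ π x a J) (aQ hinj J) (bQ hinj J)) ∧
    Module.finrank K (Th σ (xQ π x a J) (aQ hinj J) (bQ hinj J)) ≤
      Module.finrank K (Th (σ.comp π : Representation K G E) x a b) := by
  have hJ : ∀ j ∈ J, π (x (a j)) = 1 := by
    intro j hj
    have h1 : x (a j) ∈ π.ker := by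
      rw [hker]
      exact Subgroup.subset_normalClosure ⟨j, hj, rfl⟩
    exact h1
  have hmem : ∀ r : (FreeGroup.lift x).ker, pQ a J r ∈ (FreeGroup.lift (xQ π x a J)).ker := by
    intro r
    rw [MonoidHom.mem_ker, lift_pQ π x a J hJ, MonoidHom.mem_ker.1 r.2, map_one]
  let T : Th σ (xQ π x a J) (aQ hinj J) (bQ hinj J) →ₗ[K]
      Th (σ.comp π : Representation K G E) x a b :=
    { toFun := fun θ => ⟨fun r => θ.1 ⟨pQ a J r, hmem r⟩, by
        refine ⟨?_, ?_, ?_⟩
        · intro r s
          have h1 := θ.2.1 ⟨pQ a J r, hmem r⟩ ⟨pQ a J s, hmem s⟩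
          have h2 : (⟨pQ a J ((r * s : (FreeGroup.lift x).ker) : FreeGroup ι), hmem (r * s)⟩ :
              (FreeGroup.lift (xQ π x a J)).ker) = ⟨pQ a J r, hmem r⟩ * ⟨pQ a J s, hmem s⟩ :=
            Subtype.ext (map_mul (pQ a J) (r : FreeGroup ι) s)
          beta_reduce
          rw [h2]
          exact h1
        · intro f r r' hr
          have h1 := θ.2.2.1 (pQ a J f) ⟨pQ a J r, hmem r⟩ ⟨pQ a J r', hmem r'⟩ (by
            show pQ a J r' = _
            rw [hr, map_mul, map_mul, map_inv])
          beta_reduce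
          rw [h1, lift_pQ π x a J hJ]
          rfl
        · intro i r hr
          beta_reduce
          by_cases hi : i ∈ J
          · have h2 : (⟨pQ a J r, hmem r⟩ : (FreeGroup.lift (xQ π x a J)).ker) = 1 := by
              apply Subtype.ext
              show pQ a J r = 1
              rw [hr, map_mul, map_mul, map_mul, map_inv, map_inv, pQ_kill hi]
              simp
            rw [h2]
            have h3 := θ.2.1 1 1
            rw [mul_one] at h3
            exact left_eq_add.1 h3
          · refine θ.2.2.2 ⟨i, hi⟩ _ ?_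
            show pQ a J r = _
            have ha : pQ a J (FreeGroup.of (a i)) = FreeGroup.of (aQ hinj J ⟨i, hi⟩) :=
              pQ_of (aQ hinj J ⟨i, hi⟩)
            have hb : pQ a J (FreeGroup.of (b i)) = FreeGroup.of (bQ hinj J ⟨i, hi⟩) :=
              pQ_of (bQ hinj J ⟨i, hi⟩)
            rw [hr, map_mul, map_mul, map_mul, map_inv, map_inv, ha, hb]⟩
      map_add' := fun _ _ => rfl
      map_smul' := fun _ _ => rfl }
  have hT : Function.Injective T := by
    intro θ θ' h
    apply Subtype.ext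
    funext r'
    obtain ⟨r, hr⟩ := pQ_surj hx a hker r'
    have h1 := congrFun (congrArg Subtype.val h) r
    have h2 : (⟨pQ a J r, hmem r⟩ : (FreeGroup.lift (xQ π x a J)).ker) = r' := Subtype.ext hr
    change θ.1 ⟨pQ a J r, hmem r⟩ = θ'.1 ⟨pQ a J r, hmem r⟩ at h1
    rw [h2] at h1
    exact h1
  exact ⟨FiniteDimensional.of_injective T hT, LinearMap.finrank_le_finrank_of_injective hT⟩

end

end Thu
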