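import Pool.Agent.W_04c03c_h58t.YDef

/-!
# The local ring at a representation
-/

namespace Thu

open MvPolynomial

/-- The free group acts over the local ring. -/
theorem WB0_X {K O ι : Type} [Field K] [CommRing O] [Algebra K O] [IsLocalRing O] {n : ℕ}
    (ε : O →ₐ[K] K) (φ : MvPolynomial (ι × Fin n × Fin n) K →ₐ[K] O)
    (A : ι → Matrix (Fin n) (Fin n) K) (hA : ∀ l, IsUnit (A l).det)
    (hφ : ∀ p, ε (φ p) = evT A p) :
    ∃ X : FreeGroup ι →* Matrix (Fin n) (Fin n) O,
      ∀ l, X (FreeGroup.of l) = (gm K n l).map φ := by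
  have hu : ∀ l, IsUnit ((gm K n l).map φ) := by
    intro l
    rw [Matrix.isUnit_iff_isUnit_det]
    by_contra h
    have h1 : ((gm K n l).map φ).det ∈ IsLocalRing.maximalIdeal O := h
    have h2 : IsLocalRing.maximalIdeal O = RingHom.ker ε := by
      have h3 : (RingHom.ker ε).IsMaximal :=
        RingHom.ker_isMaximal_of_surjective ε (fun c => ⟨algebraMap K O c, by
          rw [AlgHom.commutes]
          rfl⟩)
      exact (IsLocalRing.eq_maximalIdeal h3).symm
    rw [h2, RingHom.mem_ker] at h1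
    have h4 : ε ((gm K n l).map φ).det = (A l).det := by
      have h5 : ((gm K n l).map φ).map ε = A l := by
        ext i j
        show ε (φ (gm K n l i j)) = A l i j
        rw [hφ]
        show evT A (X (l, i, j)) = A l i j
        unfold evT
        rw [aeval_X]
      rw [← h5]
      exact AlgHom.map_det ε _
    rw [h4] at h1
    exact (hA l).ne_zero h1
  choose u hu using hu
  refine ⟨(Units.coeHom _).comp (FreeGroup.lift u), fun l => ?_⟩
  rw [MonoidHom.comp_apply, FreeGroup.lift_apply_of, Units.coeHom_apply, hu]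

section

variable {K G Q ι κ : Type} [Field K] [Group G] [Group Q] {n : ℕ}

/-- the ideal of the commutation and filling relations and of the determinants -/
noncomputable def detIdeal (n : ℕ) (a b : κ → ι) (e : κ → ℕ) (dd : ι → K) :
    Ideal (MvPolynomial (ι × Fin n × Fin n) K) :=
  fillIdeal K n a b e ⊔ Ideal.span {p | ∃ l : ι, p = (gm K n l).det - C (dd l)}

theorem evT_gm (A : ι → Matrix (Fin n) (Fin n) K) (l : ι) :
    (evT A).mapMatrix (gm K n l) = A l := by
  ext i j
  show evT A (X (l, i, j)) = A l i j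
  unfold evT
  rw [aeval_X]

theorem evT_fill (A : ι → Matrix (Fin n) (Fin n) K) (a b : κ → ι) (e : κ → ℕ)
    (h1 : ∀ i, A (a i) * A (b i) = A (b i) * A (a i)) (h2 : ∀ i, A (a i) ^ e i = 1) :
    fillIdeal K n a b e ≤ RingHom.ker (evT A) := by
  unfold fillIdeal
  rw [Ideal.span_le]
  rintro p (⟨i, r, s, rfl⟩ | ⟨i, r, s, rfl⟩)
  · rw [SetLike.mem_coe, RingHom.mem_ker]
    have h3 : (evT A).mapMatrix (gm K n (a i) * gm K n (b i) - gm K n (b i) * gm K n (a i)) = 0 := by
      rw [map_sub, map_mul, map_mul, evT_gm, evT_gm, h1, sub_self]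
    exact congrFun (congrFun h3 r) s
  · rw [SetLike.mem_coe, RingHom.mem_ker]
    have h3 : (evT A).mapMatrix (gm K n (a i) ^ e i - 1) = 0 := by
      rw [map_sub, map_pow, map_one, evT_gm, h2, sub_self]
    exact congrFun (congrFun h3 r) s

theorem evT_det (A : ι → Matrix (Fin n) (Fin n) K) (l : ι) (c : K) (h : (A l).det = c) :
    evT A ((gm K n l).det - C c) = 0 := by
  rw [map_sub, AlgHom.map_det, evT_gm, h]
  unfold evT
  rw [aeval_C]
  simp

theorem detIdeal_le (A : ι → Matrix (Fin n) (Fin n) K) (a b : κ → ι) (e : κ → ℕ) (dd : ι → K)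
    (h1 : ∀ i, A (a i) * A (b i) = A (b i) * A (a i)) (h2 : ∀ i, A (a i) ^ e i = 1)
    (h3 : ∀ l, (A l).det = dd l) : detIdeal n a b e dd ≤ RingHom.ker (evT A) := by
  unfold detIdeal
  refine sup_le (evT_fill A a b e h1 h2) ?_
  rw [Ideal.span_le]
  rintro p ⟨l, rfl⟩
  exact evT_det A l (dd l) (h3 l)

end

end Thu
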