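import Pool.Agent.W_04c03c_h62i.WB0

/-!
# The data of the local ring at a representation of a filling
-/

namespace Thu

open MvPolynomial

section

variable {K O G Q ι κ : Type} [Field K] [CommRing O] [Algebra K O] [Group G] [Group Q] {n : ℕ}

theorem WB1_rel {π : G →* Q} {x : ι → G} {a : κ → ι} {e : κ → ℕ}
    (hker : π.ker = Subgroup.normalClosure (Set.range fun i => x (a i) ^ e i)) (i : κ) :
    π (x (a i)) ^ e i = 1 := by
  rw [← map_pow]
  have h1 : x (a i) ^ e i ∈ π.ker := by
    rw [hker]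
    exact Subgroup.subset_normalClosure ⟨i, rfl⟩
  exact h1

theorem WB1_loc {π : G →* Q} (hπ : Function.Surjective π) {δ : Q →* Kˣ}
    {ρ : Q →* Matrix (Fin n) (Fin n) K} (hδ : ∀ g, (ρ g).det = (δ g : K))
    {x : ι → G} (hx : Subgroup.closure (Set.range x) = ⊤) {a b : κ → ι}
    (hab : ∀ i, x (a i) * x (b i) = x (b i) * x (a i)) {e : κ → ℕ}
    (hker : π.ker = Subgroup.normalClosure (Set.range fun i => x (a i) ^ e i))
    (ε : O →ₐ[K] K) (φ : MvPolynomial (ι × Fin n × Fin n) K →ₐ[K] O)
    (hφ : ∀ p, ε (φ p) = evT (fun l => ρ (π (x l))) p)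
    (X : FreeGroup ι →* Matrix (Fin n) (Fin n) O)
    (hX : ∀ l, X (FreeGroup.of l) = (gm K n l).map φ) :
    LocD π x a b e ρ ε X
      (Ideal.map (φ.toRingHom) (detIdeal n a b e fun l => ((δ (π (x l)) : Kˣ) : K))) := by
  have hc : ∀ i, ρ (π (x (a i))) * ρ (π (x (b i))) = ρ (π (x (b i))) * ρ (π (x (a i))) := by
    intro i
    rw [← map_mul, ← map_mul, hab, map_mul, map_mul]
  have hf : ∀ i, ρ (π (x (a i))) ^ e i = 1 := by
    intro i
    rw [← map_pow, WB1_rel hker, map_one]
  have hmem : ∀ p ∈ detIdeal n a b e (fun l => ((δ (π (x l)) : Kˣ) : K)),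
      φ.toRingHom p ∈ Ideal.map (φ.toRingHom)
        (detIdeal n a b e fun l => ((δ (π (x l)) : Kˣ) : K)) :=
    fun p hp => Ideal.mem_map_of_mem φ.toRingHom hp
  refine ⟨hπ, hx, hker, hab, ?_, ?_, ?_, ?_, ?_⟩
  · intro f
    let F : FreeGroup ι →* Matrix (Fin n) (Fin n) K :=
      { toFun := fun f => (X f).map ε
        map_one' := by
          rw [map_one, Matrix.map_one _ (map_zero _) (map_one _)]
        map_mul' := by
          intro f g
          rw [map_mul]
          exact Matrix.map_mul (f := (ε : O →+* K)) }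
    have h1 : F = ρ.comp (π.comp (FreeGroup.lift x)) := by
      apply FreeGroup.ext_hom
      intro l
      show (X (FreeGroup.of l)).map ε = ρ (π (FreeGroup.lift x (FreeGroup.of l)))
      rw [hX, FreeGroup.lift_apply_of]
      ext i j
      show ε (φ (gm K n l i j)) = _
      rw [hφ]
      show evT (fun l => ρ (π (x l))) (MvPolynomial.X (l, i, j)) = _
      unfold evT
      rw [aeval_X]
    exact DFunLike.congr_fun h1 f
  · rw [Ideal.map_le_iff_le_comap]
    intro p hp
    rw [Ideal.mem_comap, RingHom.mem_ker]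
    show ε (φ p) = 0
    rw [hφ]
    exact detIdeal_le _ a b e _ hc hf (fun l => hδ _) hp
  · intro i r s
    have h1 : (X (FreeGroup.of (a i)) * X (FreeGroup.of (b i)) -
        X (FreeGroup.of (b i)) * X (FreeGroup.of (a i))) r s =
        φ ((gm K n (a i) * gm K n (b i) - gm K n (b i) * gm K n (a i)) r s) := by
      rw [hX, hX]
      have h2 : (gm K n (a i)).map φ * (gm K n (b i)).map φ -
          (gm K n (b i)).map φ * (gm K n (a i)).map φ =
          φ.mapMatrix (gm K n (a i) * gm K n (b i) - gm K n (b i) * gm K n (a i)) := by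
        rw [map_sub, map_mul, map_mul]
        rfl
      rw [h2]
      rfl
    rw [h1]
    exact hmem _ (Ideal.mem_sup_left (Ideal.subset_span (Or.inl ⟨i, r, s, rfl⟩)))
  · intro i r s
    have h1 : (X (FreeGroup.of (a i)) ^ e i - 1) r s = φ ((gm K n (a i) ^ e i - 1) r s) := by
      rw [hX]
      have h2 : (gm K n (a i)).map φ ^ e i - 1 = φ.mapMatrix (gm K n (a i) ^ e i - 1) := by
        rw [map_sub, map_pow, map_one]
        rfl
      rw [h2]
      rfl
    rw [h1]
    exact hmem _ (Ideal.mem_sup_left (Ideal.subset_span (Or.inr ⟨i, r, s, rfl⟩)))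
  · intro f
    obtain ⟨J, hJ⟩ : ∃ J : Ideal O, J =
      Ideal.map (φ.toRingHom) (detIdeal n a b e fun l => ((δ (π (x l)) : Kˣ) : K)) := ⟨_, rfl⟩
    rw [← hJ]
    rw [← hJ] at hmem
    have h1 : (Ideal.Quotient.mk J : O →* O ⧸ J).comp (Matrix.detMonoidHom.comp X) =
        ((Ideal.Quotient.mk J : O →* O ⧸ J).comp (algebraMap K O : K →* O)).comp
          (Matrix.detMonoidHom.comp (ρ.comp (π.comp (FreeGroup.lift x)))) := by
      apply FreeGroup.ext_hom
      intro l
      show Ideal.Quotient.mk J (X (FreeGroup.of l)).det =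
        Ideal.Quotient.mk J (algebraMap K O (ρ (π (FreeGroup.lift x (FreeGroup.of l)))).det)
      rw [Ideal.Quotient.eq, FreeGroup.lift_apply_of, hδ, hX]
      have h2 : ((gm K n l).map φ).det - algebraMap K O ((δ (π (x l)) : Kˣ) : K) =
          φ ((gm K n l).det - C ((δ (π (x l)) : Kˣ) : K)) := by
        rw [map_sub, AlgHom.map_det, ← MvPolynomial.algebraMap_eq, AlgHom.commutes]
        rfl
      rw [h2]
      exact hmem _ (Ideal.mem_sup_right (Ideal.subset_span ⟨l, rfl⟩))
    have h3 : Ideal.Quotient.mk J (X f).det =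
        Ideal.Quotient.mk J (algebraMap K O (ρ (π (FreeGroup.lift x f))).det) :=
      DFunLike.congr_fun h1 f
    exact Ideal.Quotient.eq.1 h3

end

end Thu
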