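import Pool.Agent.W_04c03c_h62i.WB1
import Pool.Agent.W_04c03c_h58t.YD
import Pool.Agent.W_04c03c_h58t.YE

/-!
# The equations at a representation of a filling, for an abstract local ring
-/

namespace Thu

open MvPolynomial

section

variable {K O G Q ι κ : Type} [Field K] [CommRing O] [Algebra K O] [Group G] [Group Q] {n : ℕ}

/-- The relations hold modulo a prime which contains the equations. -/
theorem WB2_ker [IsAlgClosed K] {π : G →* Q} (hπ : Function.Surjective π) {δ : Q →* Kˣ}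
    {ρ : Q →* Matrix (Fin n) (Fin n) K} (hδ : ∀ g, (ρ g).det = (δ g : K))
    {x : ι → G} (hx : Subgroup.closure (Set.range x) = ⊤) {a b : κ → ι}
    (hab : ∀ i, x (a i) * x (b i) = x (b i) * x (a i)) {e : κ → ℕ}
    (hker : π.ker = Subgroup.normalClosure (Set.range fun i => x (a i) ^ e i))
    (ε : O →ₐ[K] K) (φ : MvPolynomial (ι × Fin n × Fin n) K →ₐ[K] O)
    (hφ : ∀ p, ε (φ p) = evT (fun l => ρ (π (x l))) p)
    (X : FreeGroup ι →* Matrix (Fin n) (Fin n) O)
    (hX : ∀ l, X (FreeGroup.of l) = (gm K n l).map φ) (s₀ : Finset O)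
    (hs₀ : JJ π x X (Ideal.map (φ.toRingHom)
      (detIdeal n a b e fun l => ((δ (π (x l)) : Kˣ) : K))) ≤
      Ideal.map (φ.toRingHom) (detIdeal n a b e fun l => ((δ (π (x l)) : Kˣ) : K)) ⊔
        Ideal.span (s₀ : Set O))
    (q : Ideal (MvPolynomial (ι × Fin n × Fin n) K)) (hq : q.IsPrime)
    (hqm : q ≤ RingHom.ker (evT fun l => ρ (π (x l))))
    (hq1 : fillIdeal K n a b e ≤ q)
    (hq2 : ∀ l, (∀ i, e i ≠ 0 → a i ≠ l) → (gm K n l).det - C ((δ (π (x l)) : Kˣ) : K) ∈ q)
    (q' : Ideal O) (hqq : Ideal.map (φ.toRingHom) q ≤ q') (hs₀q : (s₀ : Set O) ⊆ q')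
    (hback : ∀ p, φ p ∈ q' → p ∈ q) :
    RingHom.ker (toRep (n := n) δ fun l => π (x l)) ≤ q := by
  have hL := WB1_loc hπ hδ hx hab hker ε φ hφ X hX
  have hdq : detIdeal n a b e (fun l => ((δ (π (x l)) : Kˣ) : K)) ≤ q := by
    unfold detIdeal
    refine sup_le hq1 ?_
    rw [Ideal.span_le]
    rintro p ⟨l, rfl⟩
    by_cases hl : ∀ i, e i ≠ 0 → a i ≠ l
    · exact hq2 l hl
    · push Not at hl
      obtain ⟨i, hi, rfl⟩ := hl
      have h1 := det_fil (fun l => ρ (π (x l))) q hq hqm (a i) hi (fun r s =>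
        hq1 (Ideal.subset_span (Or.inr ⟨i, r, s, rfl⟩)))
      have h2 : (ρ (π (x (a i)))).det = ((δ (π (x (a i))) : Kˣ) : K) := hδ _
      rw [h2] at h1
      exact h1
  have hJ1 : Ideal.map (φ.toRingHom) (detIdeal n a b e fun l => ((δ (π (x l)) : Kˣ) : K)) ≤ q' :=
    (Ideal.map_mono hdq).trans hqq
  have hJJ : JJ π x X (Ideal.map (φ.toRingHom)
      (detIdeal n a b e fun l => ((δ (π (x l)) : Kˣ) : K))) ≤ q' :=
    hs₀.trans (sup_le hJ1 (Ideal.span_le.2 hs₀q))
  let X' : FreeGroup ι →* Matrix (Fin n) (Fin n) (O ⧸ q') :=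
    { toFun := fun f => (X f).map (Ideal.Quotient.mk q')
      map_one' := by
        rw [map_one, Matrix.map_one _ (map_zero _) (map_one _)]
      map_mul' := by
        intro f g
        rw [map_mul]
        exact Matrix.map_mul (f := Ideal.Quotient.mk q') }
  have hk := ker_toRep hπ hx δ X' (fun r hr => by
      ext i j
      show Ideal.Quotient.mk q' (X r i j) = (1 : Matrix (Fin n) (Fin n) (O ⧸ q')) i j
      have h1 : (X r - 1) i j ∈ q' := hJJ (Ideal.mem_sup_right
        (Ideal.subset_span ⟨r, hr, i, j, rfl⟩))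
      rw [Matrix.sub_apply] at h1
      rw [(Ideal.Quotient.eq (I := q')).2 h1, Matrix.one_apply, Matrix.one_apply]
      split_ifs
      · exact map_one _
      · exact map_zero _)
    (fun f => by
      have h1 := hJ1 (hL.det f)
      have h2 := (Ideal.Quotient.eq (I := q')).2 h1
      have h3 : (X' f).det = Ideal.Quotient.mk q' (X f).det :=
        (RingHom.map_det (Ideal.Quotient.mk q') (X f)).symm
      rw [h3, h2, hδ]
      rfl)
    ((Ideal.Quotient.mkₐ K q').comp φ) (fun l i j => by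
      show Ideal.Quotient.mk q' (φ (MvPolynomial.X (l, i, j))) =
        Ideal.Quotient.mk q' (X (FreeGroup.of l) i j)
      rw [hX]
      rfl)
  intro p hp
  have h1 := hk hp
  rw [RingHom.mem_ker] at h1
  have h2 : Ideal.Quotient.mk q' (φ p) = 0 := h1
  exact hback p (Ideal.Quotient.eq_zero_iff_mem.1 h2)

end

end Thu
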