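import Pool.Agent.W_04c03c_h62i.WB2

/-!
# Counting the equations, for an abstract local ring
-/

namespace Thu

open MvPolynomial

/-- The generators which are not filled. -/
theorem WB3_card {ι κ : Type} [Fintype ι] [Fintype κ] [DecidableEq ι] {a : κ → ι}
    (ha : Function.Injective a) (e : κ → ℕ) :
    (Finset.univ.filter fun l : ι => ∀ i, e i ≠ 0 → a i ≠ l).card +
      (Finset.univ.filter fun i => e i ≠ 0).card = Fintype.card ι := by
  have h1 : (Finset.univ.filter fun i => e i ≠ 0).card =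
      ((Finset.univ.filter fun i => e i ≠ 0).image a).card :=
    (Finset.card_image_of_injective _ ha).symm
  have h2 : ((Finset.univ.filter fun i => e i ≠ 0).image a) =
      Finset.univ.filter fun l : ι => ¬ ∀ i, e i ≠ 0 → a i ≠ l := by
    ext l
    simp only [Finset.mem_image, Finset.mem_filter, Finset.mem_univ, true_and]
    push Not
    rfl
  rw [h1, h2, Finset.card_filter_add_card_filter_not, Finset.card_univ]

section

variable {K O G Q ι κ : Type} [Field K] [CommRing O] [Algebra K O] [Group G] [Group Q] {n : ℕ}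

theorem WB3_fill [IsAlgClosed K] [Fintype ι] [Fintype κ] {π : G →* Q}
    (hπ : Function.Surjective π) {δ : Q →* Kˣ}
    {ρ : Q →* Matrix (Fin n) (Fin n) K} (hδ : ∀ g, (ρ g).det = (δ g : K))
    {x : ι → G} (hx : Subgroup.closure (Set.range x) = ⊤) {a b : κ → ι}
    (ha : Function.Injective a)
    (hab : ∀ i, x (a i) * x (b i) = x (b i) * x (a i)) {e : κ → ℕ}
    (hker : π.ker = Subgroup.normalClosure (Set.range fun i => x (a i) ^ e i))
    [IsLocalRing O] [IsNoetherianRing O]
    (ε : O →ₐ[K] K) (φ : MvPolynomial (ι × Fin n × Fin n) K →ₐ[K] O)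
    (hφ : ∀ p, ε (φ p) = evT (fun l => ρ (π (x l))) p)
    (hnum : ∀ f : O, ∃ p d, IsUnit (φ d) ∧ f * φ d = φ p)
    (hprime : ∀ q : Ideal (MvPolynomial (ι × Fin n × Fin n) K), q.IsPrime →
      q ≤ RingHom.ker (evT fun l => ρ (π (x l))) →
      ∀ p, φ p ∈ Ideal.map φ.toRingHom q → p ∈ q)
    [FiniteDimensional K (Th (adRep (ρ.comp π)) x a b)] :
    ∃ s : Finset (MvPolynomial (ι × Fin n × Fin n) K),
      s.card + (Finset.univ.filter fun i => e i ≠ 0).card ≤
        Module.finrank K (Th (adRep (ρ.comp π)) x a b) + Fintype.card ι ∧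
      (∀ f ∈ s, evT (fun l => ρ (π (x l))) f = 0) ∧
      ∀ q : Ideal (MvPolynomial (ι × Fin n × Fin n) K), q.IsPrime →
        q ≤ RingHom.ker (evT fun l => ρ (π (x l))) →
        fillIdeal K n a b e ⊔ Ideal.span (s : Set _) ≤ q →
        RingHom.ker (toRep (n := n) δ fun l => π (x l)) ≤ q := by
  classical
  have hA : ∀ l, IsUnit (ρ (π (x l))).det := by
    intro l
    rw [hδ]
    exact (δ (π (x l))).isUnit
  obtain ⟨X, hX⟩ := WB0_X ε φ (fun l => ρ (π (x l))) hA hφ
  have hL := WB1_loc hπ hδ hx hab hker ε φ hφ X hX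
  obtain ⟨s₀, hs1, hs2, hs3⟩ := exists_eqs hL
  choose p d hd hpd using hnum
  have hp0 : ∀ f ∈ s₀, evT (fun l => ρ (π (x l))) (p f) = 0 := by
    intro f hf
    have h1 : ε f = 0 := jj_le hL (hs2 f hf)
    rw [← hφ, ← hpd f, map_mul, h1, zero_mul]
  refine ⟨s₀.image p ∪ (Finset.univ.filter fun l : ι => ∀ i, e i ≠ 0 → a i ≠ l).image
    (fun l => (gm K n l).det - C ((δ (π (x l)) : Kˣ) : K)), ?_, ?_, ?_⟩
  · have h1 := WB3_card ha e
    have h2 := Finset.card_union_le (s₀.image p)
      ((Finset.univ.filter fun l : ι => ∀ i, e i ≠ 0 → a i ≠ l).image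
        (fun l => (gm K n l).det - C ((δ (π (x l)) : Kˣ) : K)))
    have h3 : (s₀.image p).card ≤ s₀.card := Finset.card_image_le
    have h4 : ((Finset.univ.filter fun l : ι => ∀ i, e i ≠ 0 → a i ≠ l).image
        (fun l => (gm K n l).det - C ((δ (π (x l)) : Kˣ) : K))).card ≤
        (Finset.univ.filter fun l : ι => ∀ i, e i ≠ 0 → a i ≠ l).card := Finset.card_image_le
    omega
  · intro f hf
    rw [Finset.mem_union, Finset.mem_image, Finset.mem_image] at hf
    rcases hf with ⟨g, hg, rfl⟩ | ⟨l, _, rfl⟩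
    · exact hp0 g hg
    · exact evT_det _ l _ (hδ _)
  · intro q hq hqm hqs
    have hq1 : fillIdeal K n a b e ≤ q := le_sup_left.trans hqs
    have hqs' := Ideal.span_le.1 (le_sup_right.trans hqs)
    refine WB2_ker hπ hδ hx hab hker ε φ hφ X hX s₀ hs3 q hq hqm hq1 ?_
      (Ideal.map φ.toRingHom q) le_rfl ?_ (hprime q hq hqm)
    · intro l hl
      apply hqs'
      rw [Finset.mem_coe, Finset.mem_union, Finset.mem_image, Finset.mem_image]
      exact Or.inr ⟨l, Finset.mem_filter.2 ⟨Finset.mem_univ _, hl⟩, rfl⟩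
    · intro f hf
      have h1 : p f ∈ q := by
        apply hqs'
        rw [Finset.mem_coe, Finset.mem_union, Finset.mem_image, Finset.mem_image]
        exact Or.inl ⟨f, hf, rfl⟩
      have h2 : f * φ (d f) ∈ Ideal.map φ.toRingHom q := by
        rw [hpd f]
        exact Ideal.mem_map_of_mem φ.toRingHom h1
      exact (Ideal.mul_unit_mem_iff_mem _ (hd f)).1 h2

end

end Thu
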